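import Mathlib

/-!
# The inverse Fourier transform on `L²(ℝ)` and the inverse Fourier integral agree
-/

open MeasureTheory FourierTransform SchwartzMap Complex
open scoped ContDiff

namespace Pool.Agent.H26

theorem continuous_neg_inner_real : Continuous fun p : ℝ × ℝ => (-innerₗ ℝ) p.1 p.2 := by
  have h : (fun p : ℝ × ℝ => (-innerₗ ℝ) p.1 p.2) = fun p => -(p.2 * p.1) := by
    ext p
    simp
  rw [h]
  exact (continuous_snd.mul continuous_fst).neg

/-- pairing of an inverse Fourier integral of an integrable function with a Schwartz function -/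
theorem integral_fourierInv_smul_flip (φ : 𝓢(ℝ, ℂ)) {B : ℝ → ℂ} (hB : Integrable B) :
    ∫ x, (𝓕⁻ φ : 𝓢(ℝ, ℂ)) x • B x = ∫ x, φ x • (𝓕⁻ B : ℝ → ℂ) x := by
  have h := VectorFourier.integral_fourierIntegral_smul_eq_flip (L := -innerₗ ℝ) (μ := volume)
    (ν := volume) (e := Real.fourierChar) Real.continuous_fourierChar continuous_neg_inner_real
    φ.integrable hB
  have hflip : (-innerₗ ℝ).flip = -innerₗ ℝ := by
    ext
    simp
  rw [hflip] at h
  rw [SchwartzMap.fourierInv_coe]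
  exact h

theorem continuous_fourierInv_of_integrable {B : ℝ → ℂ} (h1 : Integrable B) :
    Continuous (𝓕⁻ B : ℝ → ℂ) :=
  VectorFourier.fourierIntegral_continuous (L := -innerₗ ℝ) (μ := volume)
    (e := Real.fourierChar) Real.continuous_fourierChar continuous_neg_inner_real h1

/-- For `B ∈ L¹ ∩ L²` the `L²` inverse Fourier transform of `B` is given a.e. by the inverse
Fourier integral. -/
theorem fourierInv_toLp_ae {B : ℝ → ℂ} (h1 : Integrable B) (h2 : MemLp B 2 volume) :
    ((𝓕⁻ (h2.toLp B) : Lp ℂ 2 (volume : Measure ℝ)) : ℝ → ℂ) =ᵐ[volume] 𝓕⁻ B := by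
  apply ae_eq_of_integral_contDiff_smul_eq
  · exact (Lp.memLp _).locallyIntegrable (by norm_num)
  · exact (continuous_fourierInv_of_integrable h1).locallyIntegrable
  · intro g g_smooth g_cpt
    have hg₁ : HasCompactSupport (Complex.ofRealCLM ∘ g) := g_cpt.comp_left rfl
    have hg₂ : ContDiff ℝ ∞ (Complex.ofRealCLM ∘ g) := by fun_prop
    set φ : 𝓢(ℝ, ℂ) := hg₁.toSchwartzMap hg₂ with hφ
    have e1 : ∫ x, g x • ((𝓕⁻ (h2.toLp B) : Lp ℂ 2 (volume : Measure ℝ)) : ℝ → ℂ) x
        = ∫ x, φ x • ((𝓕⁻ (h2.toLp B) : Lp ℂ 2 (volume : Measure ℝ)) : ℝ → ℂ) x := by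
      simp [hφ]
    have e2 : ∫ x, g x • (𝓕⁻ B : ℝ → ℂ) x = ∫ x, φ x • (𝓕⁻ B : ℝ → ℂ) x := by
      simp [hφ]
    rw [e1, e2, ← integral_fourierInv_smul_flip φ h1, ← Lp.toTemperedDistribution_apply,
      ← Lp.fourierInv_toTemperedDistribution_eq, TemperedDistribution.fourierInv_apply,
      Lp.toTemperedDistribution_apply]
    apply integral_congr_ae
    filter_upwards [h2.coeFn_toLp] with x hx
    rw [hx]

end Pool.Agent.H26
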