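import Mathlib
import Pool.Agent.H26.FourierLp

/-!
# The dyadic orthonormal basis of `L²(ℝ)` (frequency side)
-/

open MeasureTheory FourierTransform Complex

namespace Pool.Agent.H26

/-- the signed dyadic dilations `±2^j` -/
def Dil : Set ℝˣ := {a | ∃ j : ℤ, (a : ℝ) = 2 ^ j ∨ (a : ℝ) = -2 ^ j}

/-- `B S l a ξ = |a|^{-1/2} exp (-2 π i l ξ / a) 1_S (ξ / a)` -/
noncomputable def B (S : Set ℝ) (l a : ℝ) : ℝ → ℂ := fun ξ =>
  ((Real.sqrt |a|)⁻¹ : ℂ) * (Complex.exp (-(2 * Real.pi * Complex.I * ((l * (ξ / a) : ℝ) : ℂ))) *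
    S.indicator (fun _ => (1 : ℂ)) (ξ / a))

theorem B_eq_indicator (S : Set ℝ) (l a : ℝ) :
    B S l a = ((fun ξ => ξ / a) ⁻¹' S).indicator (fun ξ => ((Real.sqrt |a|)⁻¹ : ℂ) *
      Complex.exp (-(2 * Real.pi * Complex.I * ((l * (ξ / a) : ℝ) : ℂ)))) := by
  funext ξ
  unfold B
  by_cases h : ξ / a ∈ S
  · rw [Set.indicator_of_mem h, Set.indicator_of_mem (by exact h)]
    ring
  · rw [Set.indicator_of_notMem h, Set.indicator_of_notMem (by exact h)]
    ring

theorem norm_exp_aux (r : ℝ) :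
    ‖Complex.exp (-(2 * Real.pi * Complex.I * ((r : ℝ) : ℂ)))‖ = 1 := by
  rw [Complex.norm_exp]
  simp

theorem preimage_div_eq (S : Set ℝ) (a : ℝ) :
    (fun ξ => ξ / a) ⁻¹' S = (fun ξ => a⁻¹ * ξ) ⁻¹' S := by
  ext ξ
  simp [div_eq_inv_mul]

theorem volume_preimage_div (S : Set ℝ) {a : ℝ} (ha : a ≠ 0) :
    volume ((fun ξ => ξ / a) ⁻¹' S) = ENNReal.ofReal |a| * volume S := by
  rw [preimage_div_eq S a, Real.volume_preimage_mul_left (inv_ne_zero ha), inv_inv]

theorem measurableSet_preimage_div {S : Set ℝ} (hS : MeasurableSet S) (a : ℝ) :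
    MeasurableSet ((fun ξ => ξ / a) ⁻¹' S) :=
  measurableSet_preimage (measurable_id.div_const a) hS

theorem norm_B_le (S : Set ℝ) (l a : ℝ) (ξ : ℝ) :
    ‖B S l a ξ‖ ≤ ‖((fun ξ => ξ / a) ⁻¹' S).indicator (fun _ => ((Real.sqrt |a|)⁻¹ : ℂ)) ξ‖ := by
  rw [B_eq_indicator]
  by_cases h : ξ ∈ (fun ξ => ξ / a) ⁻¹' S
  · rw [Set.indicator_of_mem h, Set.indicator_of_mem h, norm_mul, norm_exp_aux, mul_one]
  · rw [Set.indicator_of_notMem h, Set.indicator_of_notMem h]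

theorem aestronglyMeasurable_B {S : Set ℝ} (hS : MeasurableSet S) (l a : ℝ) :
    AEStronglyMeasurable (B S l a) volume := by
  rw [B_eq_indicator]
  apply AEStronglyMeasurable.indicator _ (measurableSet_preimage_div hS a)
  apply Measurable.aestronglyMeasurable
  fun_prop

theorem memLp_B {S : Set ℝ} (hS : MeasurableSet S) (hfin : volume S ≠ ⊤) (l : ℝ) {a : ℝ}
    (ha : a ≠ 0) (p : ENNReal) : MemLp (B S l a) p volume := by
  have h1 : MemLp (((fun ξ => ξ / a) ⁻¹' S).indicator (fun _ => ((Real.sqrt |a|)⁻¹ : ℂ))) p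
      volume := by
    apply memLp_indicator_const p (measurableSet_preimage_div hS a)
    right
    rw [volume_preimage_div S ha]
    exact ENNReal.mul_ne_top ENNReal.ofReal_ne_top hfin
  exact h1.of_le (aestronglyMeasurable_B hS l a) (Filter.Eventually.of_forall (norm_B_le S l a))

theorem integrable_B {S : Set ℝ} (hS : MeasurableSet S) (hfin : volume S ≠ ⊤) (l : ℝ) {a : ℝ}
    (ha : a ≠ 0) : Integrable (B S l a) :=
  memLp_one_iff_integrable.mp (memLp_B hS hfin l ha 1)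

/-- the inverse Fourier integral of `B S l a` is the dilated and translated inverse Fourier
integral of the indicator function of `S` -/
theorem fourierInv_B (S : Set ℝ) (l : ℝ) {a : ℝ} (ha : a ≠ 0) (x : ℝ) :
    (𝓕⁻ (B S l a) : ℝ → ℂ) x =
      (Real.sqrt |a| : ℂ) * (𝓕⁻ (S.indicator (fun _ => (1 : ℂ))) : ℝ → ℂ) (a * x - l) := by
  rw [Real.fourierInv_eq', Real.fourierInv_eq']
  set g : ℝ → ℂ := fun v => Complex.exp (↑(2 * Real.pi * inner ℝ v x) * Complex.I) • B S l a v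
    with hg
  have h1 : ∫ v, g (a * v) = |a⁻¹| • ∫ v, g v := by
    rw [MeasureTheory.Measure.integral_comp_mul_left]
  have h2 : ∫ v, g v = (|a| : ℝ) • ∫ v, g (a * v) := by
    rw [h1, smul_smul, abs_inv, mul_inv_cancel₀ (abs_ne_zero.mpr ha), one_smul]
  have h3 : ∀ v, g (a * v) = ((Real.sqrt |a|)⁻¹ : ℂ) *
      (Complex.exp (↑(2 * Real.pi * inner ℝ v (a * x - l)) * Complex.I) •
        S.indicator (fun _ => (1 : ℂ)) v) := by
    intro v
    simp only [hg, B, smul_eq_mul]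
    rw [mul_div_cancel_left₀ v ha]
    have hexp : Complex.exp (↑(2 * Real.pi * inner ℝ v (a * x - l)) * Complex.I) =
        Complex.exp (↑(2 * Real.pi * inner ℝ (a * v) x) * Complex.I) *
          Complex.exp (-(2 * Real.pi * Complex.I * ((l * v : ℝ) : ℂ))) := by
      rw [← Complex.exp_add]
      congr 1
      simp only [RCLike.inner_apply, conj_trivial]
      push_cast
      ring
    rw [hexp]
    ring
  rw [h2]
  simp_rw [h3]
  rw [integral_const_mul]
  rw [Complex.real_smul, ← mul_assoc]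
  congr 1
  have hpos : 0 < Real.sqrt |a| := Real.sqrt_pos.mpr (abs_pos.mpr ha)
  have hne : ((Real.sqrt |a| : ℝ) : ℂ) ≠ 0 := by exact_mod_cast hpos.ne'
  field_simp
  rw [sq]
  norm_cast
  rw [Real.mul_self_sqrt (abs_nonneg a)]

/-! ### Orthonormality -/

theorem toLp_inner {f g : ℝ → ℂ} (hf : MemLp f 2 volume) (hg : MemLp g 2 volume) :
    inner ℂ (hf.toLp f) (hg.toLp g) = ∫ ξ, (starRingEnd ℂ) (f ξ) * g ξ := by
  rw [L2.inner_def]
  apply integral_congr_ae
  filter_upwards [hf.coeFn_toLp, hg.coeFn_toLp] with x hx hy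
  rw [hx, hy, RCLike.inner_apply, mul_comm]

theorem integral_exp_int (n : ℤ) :
    ∫ t in Set.Ico (1 : ℝ) 2, Complex.exp (2 * Real.pi * Complex.I * ((n * t : ℝ) : ℂ))
      = if n = 0 then 1 else 0 := by
  rw [integral_Ico_eq_integral_Ioc, ← intervalIntegral.integral_of_le (by norm_num)]
  by_cases hn : n = 0
  · subst hn
    simp
    norm_num
  · rw [if_neg hn]
    have hc : (2 * Real.pi * Complex.I * n : ℂ) ≠ 0 := by
      simp [Real.pi_ne_zero, hn]
    have h1 : ∀ t : ℝ, Complex.exp (2 * Real.pi * Complex.I * ((n * t : ℝ) : ℂ)) =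
        Complex.exp ((2 * Real.pi * Complex.I * n) * t) := by
      intro t
      congr 1
      push_cast
      ring
    simp_rw [h1]
    rw [integral_exp_mul_complex hc]
    have h2 : Complex.exp ((2 * Real.pi * Complex.I * n) * (2 : ℝ)) = 1 := by
      rw [Complex.exp_eq_one_iff]
      exact ⟨2 * n, by push_cast; ring⟩
    have h3 : Complex.exp ((2 * Real.pi * Complex.I * n) * (1 : ℝ)) = 1 := by
      rw [Complex.exp_eq_one_iff]
      exact ⟨n, by push_cast; ring⟩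
    rw [h2, h3]
    simp

theorem conj_exp_aux (r : ℝ) :
    (starRingEnd ℂ) (Complex.exp (-(2 * Real.pi * Complex.I * ((r : ℝ) : ℂ)))) =
      Complex.exp (2 * Real.pi * Complex.I * ((r : ℝ) : ℂ)) := by
  rw [← Complex.exp_conj]
  congr 1
  simp only [map_neg, map_mul, Complex.conj_I, Complex.conj_ofReal, map_ofNat]
  ring

/-- same dilation: the inner product reduces to the unit interval -/
theorem inner_B_same (l l' : ℤ) {a : ℝ} (ha : a ≠ 0) :
    ∫ ξ, (starRingEnd ℂ) (B (Set.Ico 1 2) l a ξ) * B (Set.Ico 1 2) l' a ξ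
      = if l = l' then 1 else 0 := by
  set g : ℝ → ℂ := fun ξ => (starRingEnd ℂ) (B (Set.Ico 1 2) l a ξ) * B (Set.Ico 1 2) l' a ξ
    with hg
  have h1 : ∫ v, g (a * v) = |a⁻¹| • ∫ v, g v := by
    rw [MeasureTheory.Measure.integral_comp_mul_left]
  have h2 : ∫ v, g v = (|a| : ℝ) • ∫ v, g (a * v) := by
    rw [h1, smul_smul, abs_inv, mul_inv_cancel₀ (abs_ne_zero.mpr ha), one_smul]
  have hsq : ((Real.sqrt |a|)⁻¹ : ℂ) * ((Real.sqrt |a|)⁻¹ : ℂ) = (((|a| : ℝ) : ℂ))⁻¹ := by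
    norm_cast
    rw [← mul_inv, Real.mul_self_sqrt (abs_nonneg a)]
  have h3 : ∀ v, g (a * v) = (((|a| : ℝ) : ℂ))⁻¹ * (Set.Ico (1 : ℝ) 2).indicator (fun t =>
      Complex.exp (2 * Real.pi * Complex.I * (((l - l' : ℤ) * t : ℝ) : ℂ))) v := by
    intro v
    simp only [hg, B]
    rw [mul_div_cancel_left₀ v ha]
    by_cases hv : v ∈ Set.Ico (1 : ℝ) 2
    · rw [Set.indicator_of_mem hv, Set.indicator_of_mem hv]
      rw [map_mul, map_mul, conj_exp_aux]
      have hre : (starRingEnd ℂ) ((Real.sqrt |a|)⁻¹ : ℂ) = ((Real.sqrt |a|)⁻¹ : ℂ) := by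
        rw [← Complex.ofReal_inv, Complex.conj_ofReal]
      rw [hre, ← hsq]
      have hexp : Complex.exp (2 * Real.pi * Complex.I * (((l - l' : ℤ) * v : ℝ) : ℂ)) =
          Complex.exp (2 * Real.pi * Complex.I * ((l * v : ℝ) : ℂ)) *
            Complex.exp (-(2 * Real.pi * Complex.I * ((l' * v : ℝ) : ℂ))) := by
        rw [← Complex.exp_add]
        congr 1
        push_cast
        ring
      rw [hexp]
      simp
      ring
    · rw [Set.indicator_of_notMem hv, Set.indicator_of_notMem hv]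
      simp
  rw [h2]
  simp_rw [h3]
  rw [integral_const_mul, integral_indicator measurableSet_Ico, integral_exp_int]
  rw [Complex.real_smul, ← mul_assoc]
  have hne : ((|a| : ℝ) : ℂ) ≠ 0 := by exact_mod_cast abs_ne_zero.mpr ha
  rw [mul_inv_cancel₀ hne, one_mul]
  by_cases h : l = l'
  · simp [h]
  · rw [if_neg h, if_neg (sub_ne_zero.mpr h)]

/-- different signed dyadic dilations of `[1,2)` are disjoint -/
theorem dil_unique {a b : ℝˣ} (ha : a ∈ Dil) (hb : b ∈ Dil) {ξ : ℝ}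
    (h1 : ξ / (a : ℝ) ∈ Set.Ico (1 : ℝ) 2) (h2 : ξ / (b : ℝ) ∈ Set.Ico (1 : ℝ) 2) : a = b := by
  have key : ∀ (j k : ℤ) (x : ℝ), x / 2 ^ j ∈ Set.Ico (1 : ℝ) 2 → x / 2 ^ k ∈ Set.Ico (1 : ℝ) 2 →
      j ≤ k := by
    intro j k x hj hk
    by_contra hlt
    push Not at hlt
    have hj0 : (0 : ℝ) < 2 ^ j := by positivity
    have hk0 : (0 : ℝ) < 2 ^ k := by positivity
    rw [Set.mem_Ico, le_div_iff₀ hj0, div_lt_iff₀ hj0] at hj
    rw [Set.mem_Ico, le_div_iff₀ hk0, div_lt_iff₀ hk0] at hk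
    have h3 : (2 : ℝ) ^ (k + 1) ≤ 2 ^ j := zpow_le_zpow_right₀ (by norm_num) (by omega)
    rw [zpow_add₀ (by norm_num)] at h3
    linarith [hj.1, hk.2]
  apply Units.ext
  obtain ⟨j, hj⟩ := ha
  obtain ⟨k, hk⟩ := hb
  rcases hj with hj | hj <;> rcases hk with hk | hk
  · rw [hj] at h1
    rw [hk] at h2
    rw [hj, hk, le_antisymm (key j k ξ h1 h2) (key k j ξ h2 h1)]
  · exfalso
    rw [hj] at h1
    rw [hk] at h2
    have hj0 : (0 : ℝ) < 2 ^ j := by positivity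
    have hk0 : (0 : ℝ) < 2 ^ k := by positivity
    rw [Set.mem_Ico, le_div_iff₀ hj0, div_lt_iff₀ hj0] at h1
    rw [Set.mem_Ico, div_neg, ← neg_div, le_div_iff₀ hk0, div_lt_iff₀ hk0] at h2
    linarith [h1.1, h2.1]
  · exfalso
    rw [hj] at h1
    rw [hk] at h2
    have hj0 : (0 : ℝ) < 2 ^ j := by positivity
    have hk0 : (0 : ℝ) < 2 ^ k := by positivity
    rw [Set.mem_Ico, div_neg, ← neg_div, le_div_iff₀ hj0, div_lt_iff₀ hj0] at h1
    rw [Set.mem_Ico, le_div_iff₀ hk0, div_lt_iff₀ hk0] at h2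
    linarith [h1.1, h2.1]
  · rw [hj, div_neg, ← neg_div] at h1
    rw [hk, div_neg, ← neg_div] at h2
    rw [hj, hk, le_antisymm (key j k (-ξ) h1 h2) (key k j (-ξ) h2 h1)]

theorem inner_B_diff {a b : ℝˣ} (ha : a ∈ Dil) (hb : b ∈ Dil) (hab : a ≠ b) (l l' : ℝ) :
    ∫ ξ, (starRingEnd ℂ) (B (Set.Ico 1 2) l a ξ) * B (Set.Ico 1 2) l' b ξ = 0 := by
  have : ∀ ξ, (starRingEnd ℂ) (B (Set.Ico 1 2) l a ξ) * B (Set.Ico 1 2) l' b ξ = 0 := by
    intro ξ
    by_cases h1 : ξ / (a : ℝ) ∈ Set.Ico (1 : ℝ) 2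
    · by_cases h2 : ξ / (b : ℝ) ∈ Set.Ico (1 : ℝ) 2
      · exact absurd (dil_unique ha hb h1 h2) hab
      · simp [B, Set.indicator_of_notMem h2]
    · simp [B, Set.indicator_of_notMem h1]
  simp [this]

/-! ### Completeness -/

theorem exists_dil (ξ : ℝ) (hξ : ξ ≠ 0) : ∃ a : ℝˣ, a ∈ Dil ∧ ξ / (a : ℝ) ∈ Set.Ico (1 : ℝ) 2 := by
  have key : ∀ x : ℝ, 0 < x → x / 2 ^ (Int.log 2 x) ∈ Set.Ico (1 : ℝ) 2 := by
    intro x hx
    have hj0 : (0 : ℝ) < 2 ^ (Int.log 2 x) := by positivity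
    rw [Set.mem_Ico, le_div_iff₀ hj0, div_lt_iff₀ hj0]
    have h1 := Int.zpow_log_le_self (b := 2) (r := x) (by norm_num) hx
    have h2 := Int.lt_zpow_succ_log_self (b := 2) (by norm_num) x
    push_cast at h1 h2
    rw [zpow_add₀ (by norm_num)] at h2
    constructor <;> linarith
  rcases lt_or_gt_of_ne hξ with h | h
  · refine ⟨Units.mk0 (-2 ^ (Int.log 2 (-ξ))) (by simp; positivity), ⟨Int.log 2 (-ξ), ?_⟩, ?_⟩
    · right; simp
    · rw [Units.val_mk0, div_neg, ← neg_div]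
      exact key (-ξ) (by linarith)
  · refine ⟨Units.mk0 (2 ^ (Int.log 2 ξ)) (by positivity), ⟨Int.log 2 ξ, ?_⟩, ?_⟩
    · left; simp
    · rw [Units.val_mk0]
      exact key ξ h

theorem countable_Dil : Dil.Countable := by
  have : Dil ⊆ (⋃ j : ℤ, {Units.mk0 ((2 : ℝ) ^ j) (by positivity)}) ∪
      (⋃ j : ℤ, {Units.mk0 (-(2 : ℝ) ^ j) (by simp; positivity)}) := by
    rintro a ⟨j, hj | hj⟩
    · left
      simp only [Set.mem_iUnion, Set.mem_singleton_iff]
      exact ⟨j, Units.ext (by simp [hj])⟩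
    · right
      simp only [Set.mem_iUnion, Set.mem_singleton_iff]
      exact ⟨j, Units.ext (by simp [hj])⟩
  refine Set.Countable.mono this ?_
  exact (Set.countable_iUnion fun _ => Set.countable_singleton _).union
    (Set.countable_iUnion fun _ => Set.countable_singleton _)

/-- completeness of the exponentials on `[1,2)` -/
theorem ae_zero_of_fourier {h : ℝ → ℂ} (hL2 : MemLp h 2 (volume.restrict (Set.Ioc (1 : ℝ) 2)))
    (hz : ∀ n : ℤ, ∫ t in Set.Ioc (1 : ℝ) 2,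
      Complex.exp (2 * Real.pi * Complex.I * ((n * t : ℝ) : ℂ)) * h t = 0) :
    ∀ᵐ t ∂(volume.restrict (Set.Ioc (1 : ℝ) 2)), h t = 0 := by
  have hab : (1 : ℝ) < 2 := by norm_num
  have hs := hasSum_sq_fourierCoeffOn hab hL2
  have hc : ∀ n : ℤ, fourierCoeffOn hab h n = 0 := by
    intro n
    rw [fourierCoeffOn_eq_integral, intervalIntegral.integral_of_le hab.le]
    have := hz (-n)
    have h2 : ∀ t : ℝ, fourier (-n) (t : AddCircle ((2 : ℝ) - 1)) • h t =
        Complex.exp (2 * Real.pi * Complex.I * (((-n : ℤ) * t : ℝ) : ℂ)) * h t := by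
      intro t
      rw [fourier_coe_apply, smul_eq_mul]
      congr 2
      push_cast
      norm_num
      ring
    simp_rw [h2]
    rw [this]
    simp
  have hs2 : HasSum (fun i : ℤ => ‖fourierCoeffOn hab h i‖ ^ 2) 0 := by
    simp [hc, hasSum_zero]
  have h3 := hs.unique hs2
  rw [intervalIntegral.integral_of_le hab.le] at h3
  have h4 : ∫ x in Set.Ioc (1 : ℝ) 2, ‖h x‖ ^ 2 = 0 := by
    have : ((2 : ℝ) - 1)⁻¹ = 1 := by norm_num
    rw [this, one_smul] at h3
    exact h3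
  have h5 : Integrable (fun x => ‖h x‖ ^ 2) (volume.restrict (Set.Ioc (1 : ℝ) 2)) :=
    (memLp_two_iff_integrable_sq_norm hL2.1).mp hL2
  rw [integral_eq_zero_iff_of_nonneg (fun x => by positivity) h5] at h4
  filter_upwards [h4] with x hx
  simpa using hx

end Pool.Agent.H26
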