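import Mathlib
import Pool.Agent.H26.DyadicBasis

/-!
# The dyadic orthonormal basis of `L²(ℝ)` (frequency side), continued
-/

open MeasureTheory FourierTransform Complex

namespace Pool.Agent.H26

theorem quasi_mul {a : ℝ} (ha : a ≠ 0) :
    Measure.QuasiMeasurePreserving (fun t : ℝ => a * t) volume volume := by
  refine ⟨measurable_const_mul a, ?_⟩
  rw [Real.map_volume_mul_left ha]
  exact Measure.smul_absolutelyContinuous

theorem quasi_div {a : ℝ} (ha : a ≠ 0) :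
    Measure.QuasiMeasurePreserving (fun t : ℝ => t / a) volume volume := by
  have := quasi_mul (inv_ne_zero ha)
  have h : (fun t : ℝ => t / a) = fun t => a⁻¹ * t := by
    ext t
    rw [div_eq_inv_mul]
  rw [h]
  exact this

theorem memLp_comp_mul {f : ℝ → ℂ} (hf : MemLp f 2 volume) {a : ℝ} (ha : a ≠ 0) :
    MemLp (fun t => f (a * t)) 2 volume := by
  have h1 : MemLp f 2 (Measure.map (fun t : ℝ => a * t) volume) := by
    rw [Real.map_volume_mul_left ha]
    exact hf.smul_measure ENNReal.ofReal_ne_top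
  exact (memLp_map_measure_iff h1.1 (measurable_const_mul a).aemeasurable).mp h1

/-- a function in `L²(ℝ)` orthogonal to all `B [1,2) n a` (`n ∈ ℤ`) vanishes a.e. on `a [1,2)` -/
theorem ae_zero_on_piece {f : ℝ → ℂ} (hf : MemLp f 2 volume) {a : ℝ} (ha : a ≠ 0)
    (hz : ∀ n : ℤ, ∫ ξ, (starRingEnd ℂ) (B (Set.Ico 1 2) n a ξ) * f ξ = 0) :
    ∀ᵐ ξ : ℝ, ξ / a ∈ Set.Ico (1 : ℝ) 2 → f ξ = 0 := by
  have hrestr : (volume : Measure ℝ).restrict (Set.Ioc (1 : ℝ) 2)
      = volume.restrict (Set.Ico (1 : ℝ) 2) :=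
    (Measure.restrict_congr_set Ico_ae_eq_Ioc).symm
  have hL2 : MemLp (fun t => f (a * t)) 2 (volume.restrict (Set.Ioc (1 : ℝ) 2)) :=
    (memLp_comp_mul hf ha).mono_measure Measure.restrict_le_self
  have hpos : 0 < Real.sqrt |a| := Real.sqrt_pos.mpr (abs_pos.mpr ha)
  have hne : ((Real.sqrt |a| : ℝ) : ℂ)⁻¹ ≠ 0 := by
    apply inv_ne_zero
    exact_mod_cast hpos.ne'
  have hz' : ∀ n : ℤ, ∫ t in Set.Ioc (1 : ℝ) 2,
      Complex.exp (2 * Real.pi * Complex.I * ((n * t : ℝ) : ℂ)) * f (a * t) = 0 := by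
    intro n
    set g : ℝ → ℂ := fun ξ => (starRingEnd ℂ) (B (Set.Ico 1 2) n a ξ) * f ξ with hg
    have h1 : ∫ v, g (a * v) = |a⁻¹| • ∫ v, g v := by
      rw [MeasureTheory.Measure.integral_comp_mul_left]
    have h2 : ∫ v, g (a * v) = 0 := by
      rw [h1, hg, hz n, smul_zero]
    have h3 : ∀ v, g (a * v) = ((Real.sqrt |a| : ℝ) : ℂ)⁻¹ * (Set.Ico (1 : ℝ) 2).indicator (fun t =>
        Complex.exp (2 * Real.pi * Complex.I * ((n * t : ℝ) : ℂ)) * f (a * t)) v := by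
      intro v
      simp only [hg, B]
      rw [mul_div_cancel_left₀ v ha]
      by_cases hv : v ∈ Set.Ico (1 : ℝ) 2
      · rw [Set.indicator_of_mem hv, Set.indicator_of_mem hv]
        rw [map_mul, map_mul, conj_exp_aux]
        have hre : (starRingEnd ℂ) ((Real.sqrt |a|)⁻¹ : ℂ) = ((Real.sqrt |a|)⁻¹ : ℂ) := by
          rw [← Complex.ofReal_inv, Complex.conj_ofReal]
        rw [hre]
        simp
        ring
      · rw [Set.indicator_of_notMem hv, Set.indicator_of_notMem hv]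
        simp
    simp_rw [h3] at h2
    rw [integral_const_mul, integral_indicator measurableSet_Ico] at h2
    rw [integral_Ioc_eq_integral_Ioo, ← integral_Ico_eq_integral_Ioo]
    exact (mul_eq_zero.mp h2).resolve_left hne
  have h4 := ae_zero_of_fourier hL2 hz'
  rw [hrestr, ae_restrict_iff' measurableSet_Ico] at h4
  have h5 := (quasi_div ha).ae h4
  filter_upwards [h5] with ξ hξ hmem
  have := hξ hmem
  rwa [mul_div_cancel₀ ξ ha] at this

/-- a function in `L²(ℝ)` orthogonal to all `B [1,2) n a`, (`n ∈ ℤ`, `a = ±2^j`) is zero -/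
theorem ae_zero_of_orthogonal {f : ℝ → ℂ} (hf : MemLp f 2 volume)
    (hz : ∀ a ∈ Dil, ∀ n : ℤ, ∫ ξ, (starRingEnd ℂ) (B (Set.Ico 1 2) n (a : ℝ) ξ) * f ξ = 0) :
    f =ᵐ[volume] 0 := by
  have h1 : ∀ᵐ ξ : ℝ, ∀ a ∈ Dil, ξ / (a : ℝ) ∈ Set.Ico (1 : ℝ) 2 → f ξ = 0 := by
    rw [ae_ball_iff countable_Dil]
    intro a ha
    exact ae_zero_on_piece hf a.ne_zero (hz a ha)
  have h2 : ∀ᵐ ξ : ℝ, ξ ≠ 0 := by
    simp [ae_iff]
  filter_upwards [h1, h2] with ξ hξ h0
  obtain ⟨a, ha, hmem⟩ := exists_dil ξ h0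
  exact hξ a ha hmem

end Pool.Agent.H26
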