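import Mathlib
import Pool.Agent.H26.DyadicBasis2

/-!
# The nilpotent fold operator on `L²(ℝ)`

`N f (ξ) = f (ξ - 3 a)` when `ξ / a ∈ (3/2, 2)` for a signed dyadic number `a`, and `0` otherwise.
-/

open MeasureTheory FourierTransform Complex

namespace Pool.Agent.H26

/-- the signed dyadic number `a` with `ξ / a ∈ [1,2)` -/
noncomputable def alpha (ξ : ℝ) : ℝ := if 0 < ξ then 2 ^ (Int.log 2 ξ) else -2 ^ (Int.log 2 (-ξ))

theorem measurable_intLog : Measurable fun ξ : ℝ => Int.log 2 ξ := by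
  unfold Int.log
  apply Measurable.ite measurableSet_Ici
  · exact (measurable_from_top (f := fun n : ℕ => ((Nat.log 2 n : ℕ) : ℤ))).comp Nat.measurable_floor
  · exact (measurable_from_top (f := fun n : ℕ => (-((Nat.clog 2 n : ℕ) : ℤ)))).comp
      (Nat.measurable_ceil.comp measurable_inv)

theorem measurable_alpha : Measurable alpha := by
  unfold alpha
  have h : Measurable fun j : ℤ => (2 : ℝ) ^ j := measurable_from_top
  apply Measurable.ite measurableSet_Ioi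
  · exact h.comp measurable_intLog
  · exact (h.comp (measurable_intLog.comp measurable_neg)).neg

theorem alpha_spec {ξ : ℝ} {a : ℝˣ} (ha : a ∈ Dil) (h : ξ / (a : ℝ) ∈ Set.Ico (1 : ℝ) 2) :
    alpha ξ = a := by
  have hξ : ξ ≠ 0 := by
    rintro rfl
    rw [zero_div] at h
    linarith [h.1]
  have key : ∀ x : ℝ, 0 < x → x / 2 ^ (Int.log 2 x) ∈ Set.Ico (1 : ℝ) 2 := by
    intro x hx
    have hj0 : (0 : ℝ) < 2 ^ (Int.log 2 x) := by positivity
    rw [Set.mem_Ico, le_div_iff₀ hj0, div_lt_iff₀ hj0]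
    have h1 := Int.zpow_log_le_self (b := 2) (r := x) (by norm_num) hx
    have h2 := Int.lt_zpow_succ_log_self (b := 2) (by norm_num) x
    push_cast at h1 h2
    rw [zpow_add₀ (by norm_num)] at h2
    constructor <;> linarith
  unfold alpha
  split_ifs with hpos
  · have h1 : (Units.mk0 ((2 : ℝ) ^ (Int.log 2 ξ)) (by positivity)) = a := by
      refine dil_unique ⟨Int.log 2 ξ, Or.inl (by simp)⟩ ha (ξ := ξ) ?_ h
      rw [Units.val_mk0]
      exact key ξ hpos
    rw [← h1, Units.val_mk0]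
  · have hneg : 0 < -ξ := by
      rcases lt_or_gt_of_ne hξ with h' | h'
      · linarith
      · exact absurd h' hpos
    have h1 : (Units.mk0 (-(2 : ℝ) ^ (Int.log 2 (-ξ))) (by simp; positivity)) = a := by
      refine dil_unique ⟨Int.log 2 (-ξ), Or.inr (by simp)⟩ ha (ξ := ξ) ?_ h
      rw [Units.val_mk0, div_neg, ← neg_div]
      exact key _ hneg
    rw [← h1, Units.val_mk0]

theorem alpha_mem (ξ : ℝ) (hξ : ξ ≠ 0) : ∃ a : ℝˣ, a ∈ Dil ∧ (a : ℝ) = alpha ξ ∧
    ξ / (a : ℝ) ∈ Set.Ico (1 : ℝ) 2 := by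
  obtain ⟨a, ha, h⟩ := exists_dil ξ hξ
  exact ⟨a, ha, (alpha_spec ha h).symm, h⟩

/-- the set where the fold operator is supported -/
def E : Set ℝ := {ξ | ξ / alpha ξ ∈ Set.Ioo (3 / 2 : ℝ) 2}

theorem measurableSet_E : MeasurableSet E := by
  apply measurableSet_preimage (measurable_id.div measurable_alpha) measurableSet_Ioo

/-- the folding map -/
noncomputable def sigma (ξ : ℝ) : ℝ := ξ - 3 * alpha ξ

theorem measurable_sigma : Measurable sigma :=
  measurable_id.sub (measurable_alpha.const_mul 3)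

theorem neg_mem_Dil {a : ℝˣ} (ha : a ∈ Dil) : -a ∈ Dil := by
  obtain ⟨j, hj | hj⟩ := ha
  · exact ⟨j, Or.inr (by simp [hj])⟩
  · exact ⟨j, Or.inl (by simp [hj])⟩

theorem mem_E_iff {ξ : ℝ} : ξ ∈ E ↔ ∃ a ∈ Dil, ξ / (a : ℝ) ∈ Set.Ioo (3 / 2 : ℝ) 2 := by
  constructor
  · intro h
    have hξ : ξ ≠ 0 := by
      rintro rfl
      have := h.1
      simp at this
      linarith
    obtain ⟨a, ha, h1, h2⟩ := alpha_mem ξ hξ
    refine ⟨a, ha, ?_⟩
    rw [h1]
    exact h
  · rintro ⟨a, ha, h⟩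
    have h1 : ξ / (a : ℝ) ∈ Set.Ico (1 : ℝ) 2 := ⟨by linarith [h.1], h.2⟩
    have h2 := alpha_spec ha h1
    change ξ / alpha ξ ∈ Set.Ioo (3 / 2 : ℝ) 2
    rw [h2]
    exact h

theorem sigma_of_mem {ξ : ℝ} {a : ℝˣ} (ha : a ∈ Dil) (h : ξ / (a : ℝ) ∈ Set.Ioo (3 / 2 : ℝ) 2) :
    sigma ξ = ξ - 3 * a := by
  have h1 : ξ / (a : ℝ) ∈ Set.Ico (1 : ℝ) 2 := ⟨by linarith [h.1], h.2⟩
  unfold sigma
  rw [alpha_spec ha h1]

theorem sigma_div {ξ : ℝ} {a : ℝˣ} (ha : a ∈ Dil) (h : ξ / (a : ℝ) ∈ Set.Ioo (3 / 2 : ℝ) 2) :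
    sigma ξ / ((-a : ℝˣ) : ℝ) ∈ Set.Ioo (1 : ℝ) (3 / 2) := by
  rw [sigma_of_mem ha h]
  have ha0 : (a : ℝ) ≠ 0 := a.ne_zero
  have : (ξ - 3 * (a : ℝ)) / ((-a : ℝˣ) : ℝ) = 3 - ξ / a := by
    push_cast
    field_simp
    ring
  rw [this]
  exact ⟨by linarith [h.2], by linarith [h.1]⟩

theorem sigma_notMem_E {ξ : ℝ} (h : ξ ∈ E) : sigma ξ ∉ E := by
  obtain ⟨a, ha, h1⟩ := mem_E_iff.mp h
  intro h2
  obtain ⟨b, hb, h3⟩ := mem_E_iff.mp h2
  have h4 := sigma_div ha h1
  have h5 : -a = b := by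
    refine dil_unique (neg_mem_Dil ha) hb (ξ := sigma ξ) ⟨h4.1.le, by linarith [h4.2]⟩
      ⟨by linarith [h3.1], h3.2⟩
  rw [h5] at h4
  linarith [h4.2, h3.1]

/-- the folding map does not increase measure -/
theorem map_sigma_le : Measure.map sigma (volume.restrict E) ≤ (volume : Measure ℝ) := by
  rw [Measure.le_iff]
  intro S hS
  rw [Measure.map_apply measurable_sigma hS, Measure.restrict_apply (measurable_sigma hS)]
  have hcount : Countable Dil := countable_Dil.to_subtype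
  have hsub : sigma ⁻¹' S ∩ E ⊆ ⋃ a : Dil, (fun ξ : ℝ => ξ - 3 * ((a : ℝˣ) : ℝ)) ⁻¹'
      (S ∩ (fun ξ : ℝ => ξ / ((-(a : ℝˣ) : ℝˣ) : ℝ)) ⁻¹' Set.Ico 1 2) := by
    rintro ξ ⟨h1, h2⟩
    obtain ⟨a, ha, h3⟩ := mem_E_iff.mp h2
    have h4 := sigma_div ha h3
    rw [Set.mem_iUnion]
    refine ⟨⟨a, ha⟩, ?_⟩
    have h5 := sigma_of_mem ha h3
    constructor
    · change ξ - 3 * (a : ℝ) ∈ S
      rw [← h5]
      exact h1
    · change (ξ - 3 * (a : ℝ)) / ((-a : ℝˣ) : ℝ) ∈ Set.Ico (1 : ℝ) 2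
      rw [← h5]
      exact ⟨h4.1.le, by linarith [h4.2]⟩
  calc volume (sigma ⁻¹' S ∩ E)
      ≤ volume (⋃ a : Dil, (fun ξ : ℝ => ξ - 3 * ((a : ℝˣ) : ℝ)) ⁻¹'
      (S ∩ (fun ξ : ℝ => ξ / ((-(a : ℝˣ) : ℝˣ) : ℝ)) ⁻¹' Set.Ico 1 2)) := measure_mono hsub
    _ ≤ ∑' a : Dil, volume ((fun ξ : ℝ => ξ - 3 * ((a : ℝˣ) : ℝ)) ⁻¹'
      (S ∩ (fun ξ : ℝ => ξ / ((-(a : ℝˣ) : ℝˣ) : ℝ)) ⁻¹' Set.Ico 1 2)) := measure_iUnion_le _
    _ = ∑' a : Dil, volume (S ∩ (fun ξ : ℝ => ξ / ((-(a : ℝˣ) : ℝˣ) : ℝ)) ⁻¹' Set.Ico 1 2) := by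
        congr 1
        funext a
        have := measure_preimage_add_right (volume : Measure ℝ) (-(3 * ((a : ℝˣ) : ℝ)))
          (S ∩ (fun ξ : ℝ => ξ / ((-(a : ℝˣ) : ℝˣ) : ℝ)) ⁻¹' Set.Ico 1 2)
        simpa [sub_eq_add_neg] using this
    _ = volume (⋃ a : Dil, S ∩ (fun ξ : ℝ => ξ / ((-(a : ℝˣ) : ℝˣ) : ℝ)) ⁻¹' Set.Ico 1 2) := by
        rw [measure_iUnion]
        · intro a b hab
          rw [Function.onFun, Set.disjoint_left]
          rintro ξ ⟨_, h1⟩ ⟨_, h2⟩
          apply hab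
          have := dil_unique (neg_mem_Dil a.2) (neg_mem_Dil b.2) h1 h2
          exact Subtype.ext (neg_injective this)
        · intro a
          exact hS.inter (measurableSet_preimage_div measurableSet_Ico _)
    _ ≤ volume S := by
        apply measure_mono
        intro ξ h
        rw [Set.mem_iUnion] at h
        obtain ⟨a, ha⟩ := h
        exact ha.1

/-- composition with the folding map, on functions -/
theorem memLp_fold {f : ℝ → ℂ} (hf : MemLp f 2 volume) :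
    MemLp (E.indicator fun ξ => f (sigma ξ)) 2 volume := by
  rw [memLp_indicator_iff_restrict measurableSet_E]
  have h1 : MemLp f 2 (Measure.map sigma (volume.restrict E)) := hf.mono_measure map_sigma_le
  exact (memLp_map_measure_iff h1.1 measurable_sigma.aemeasurable).mp h1

theorem eLpNorm_fold_le {f : ℝ → ℂ} (hf : MemLp f 2 volume) :
    eLpNorm (E.indicator fun ξ => f (sigma ξ)) 2 volume ≤ eLpNorm f 2 volume := by
  have h1 : MemLp f 2 (Measure.map sigma (volume.restrict E)) := hf.mono_measure map_sigma_le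
  rw [eLpNorm_indicator_eq_eLpNorm_restrict measurableSet_E]
  calc eLpNorm (fun ξ => f (sigma ξ)) 2 (volume.restrict E)
      = eLpNorm f 2 (Measure.map sigma (volume.restrict E)) :=
        (eLpNorm_map_measure h1.1 measurable_sigma.aemeasurable).symm
    _ ≤ eLpNorm f 2 volume := eLpNorm_mono_measure f map_sigma_le

theorem fold_congr {f g : ℝ → ℂ} (h : f =ᵐ[volume] g) :
    (E.indicator fun ξ => f (sigma ξ)) =ᵐ[volume] (E.indicator fun ξ => g (sigma ξ)) := by
  have h1 : f =ᵐ[Measure.map sigma (volume.restrict E)] g :=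
    (Measure.absolutelyContinuous_of_le map_sigma_le).ae_eq h
  have h2 := ae_of_ae_map measurable_sigma.aemeasurable h1
  rw [ae_restrict_iff' measurableSet_E] at h2
  filter_upwards [h2] with ξ hξ
  by_cases hE : ξ ∈ E
  · rw [Set.indicator_of_mem hE, Set.indicator_of_mem hE]
    exact hξ hE
  · rw [Set.indicator_of_notMem hE, Set.indicator_of_notMem hE]

/-- the fold operator on `L²(ℝ)` -/
noncomputable def fold : Lp ℂ 2 (volume : Measure ℝ) →L[ℂ] Lp ℂ 2 (volume : Measure ℝ) :=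
  LinearMap.mkContinuous
    { toFun := fun f => (memLp_fold (Lp.memLp f)).toLp
      map_add' := by
        intro f g
        rw [← MemLp.toLp_add]
        apply MemLp.toLp_congr
        refine (fold_congr (Lp.coeFn_add f g)).trans ?_
        refine Filter.Eventually.of_forall fun ξ => ?_
        by_cases hE : ξ ∈ E
        · simp [Set.indicator_of_mem hE]
        · simp [Set.indicator_of_notMem hE]
      map_smul' := by
        intro c f
        rw [RingHom.id_apply, ← MemLp.toLp_const_smul]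
        apply MemLp.toLp_congr
        refine (fold_congr (Lp.coeFn_smul c f)).trans ?_
        refine Filter.Eventually.of_forall fun ξ => ?_
        by_cases hE : ξ ∈ E
        · simp [Set.indicator_of_mem hE]
        · simp [Set.indicator_of_notMem hE] }
    1
    (by
      intro f
      rw [one_mul]
      change ‖(memLp_fold (Lp.memLp f)).toLp‖ ≤ ‖f‖
      rw [Lp.norm_toLp, Lp.norm_def]
      exact ENNReal.toReal_mono (Lp.memLp f).2.ne (eLpNorm_fold_le (Lp.memLp f)))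

theorem fold_coe (f : Lp ℂ 2 (volume : Measure ℝ)) :
    (fold f : ℝ → ℂ) =ᵐ[volume] E.indicator fun ξ => f (sigma ξ) :=
  MemLp.coeFn_toLp (memLp_fold (Lp.memLp f))

theorem fold_fold (f : Lp ℂ 2 (volume : Measure ℝ)) : fold (fold f) = 0 := by
  apply Lp.ext
  refine (fold_coe _).trans ((fold_congr (fold_coe f)).trans ?_)
  refine Filter.EventuallyEq.trans ?_ (Lp.coeFn_zero _ _ _).symm
  refine Filter.Eventually.of_forall fun ξ => ?_
  by_cases hE : ξ ∈ E
  · rw [Set.indicator_of_mem hE, Set.indicator_of_notMem (sigma_notMem_E hE)]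
    rfl
  · rw [Set.indicator_of_notMem hE]
    rfl

/-- `1 + N` is invertible with inverse `1 - N` -/
noncomputable def foldEquiv : Lp ℂ 2 (volume : Measure ℝ) ≃L[ℂ] Lp ℂ 2 (volume : Measure ℝ) :=
  ContinuousLinearEquiv.equivOfInverse (ContinuousLinearMap.id ℂ _ + fold)
    (ContinuousLinearMap.id ℂ _ - fold)
    (by intro f; simp [fold_fold])
    (by intro f; simp [fold_fold])

theorem foldEquiv_apply (f : Lp ℂ 2 (volume : Measure ℝ)) : foldEquiv f = f + fold f := by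
  simp [foldEquiv]

end Pool.Agent.H26
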