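import Mathlib

/-!
Elementary lemmas used in the proof of the exponent-lowering theorem for zero-free Hadamard
convolutions: a boundary-minimum lemma, a boundary Schwarz-Pick lemma, and some algebra on the
unit circle.
-/

set_option autoImplicit false

open Complex Metric Set
open scoped ComplexConjugate

namespace Pool.Agent.H26.HC

/-- If `Re (g (ζ - 1)) ≥ 0` for all `ζ` in the closed unit disc then `g` is real and `≤ 0`. -/
lemma real_nonpos_of_forall {g : ℂ} (h : ∀ ζ : ℂ, ‖ζ‖ ≤ 1 → 0 ≤ (g * (ζ - 1)).re) :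
    g.im = 0 ∧ g.re ≤ 0 := by
  have key : ∀ s : ℝ, 0 ≤ - g.re * s ^ 2 - g.im * s := by
    intro s
    have hpos : (0 : ℝ) < 1 + s ^ 2 := by positivity
    set ζ : ℂ := ⟨(1 - s ^ 2) / (1 + s ^ 2), 2 * s / (1 + s ^ 2)⟩ with hζ
    have hn : ‖ζ‖ ≤ 1 := by
      have h2 : ‖ζ‖ ^ 2 = 1 := by
        rw [← Complex.normSq_eq_norm_sq, Complex.normSq_apply, hζ]
        field_simp
        ring
      nlinarith [norm_nonneg ζ]
    have h1 := h ζ hn
    have h2 : (g * (ζ - 1)).re = (2 / (1 + s ^ 2)) * (- g.re * s ^ 2 - g.im * s) := by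
      simp only [Complex.mul_re, Complex.sub_re, Complex.sub_im, Complex.one_re, Complex.one_im,
        hζ]
      field_simp
      ring
    rw [h2] at h1
    have h3 : (0 : ℝ) < 2 / (1 + s ^ 2) := by positivity
    exact nonneg_of_mul_nonneg_right h1 h3
  have him : g.im = 0 := by
    by_contra hne
    have h1 := key 1
    have h2 := key (-1)
    have hre : g.re < 0 := by
      rcases lt_or_gt_of_ne hne with h3 | h3 <;> nlinarith
    have h4 := key (-g.im / (2 * g.re))
    have h5 : - g.re * (-g.im / (2 * g.re)) ^ 2 - g.im * (-g.im / (2 * g.re))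
        = g.im ^ 2 / (4 * g.re) := by
      field_simp
      ring
    rw [h5] at h4
    have h6 : g.im ^ 2 / (4 * g.re) < 0 := by
      apply div_neg_of_pos_of_neg
      · positivity
      · linarith
    linarith
  refine ⟨him, ?_⟩
  have h1 := key 1
  rw [him] at h1
  linarith

/-- Boundary minimum lemma: if `Re f` restricted to the closed unit disc attains its minimum at a
boundary point `y`, then `y f'(y)` is real and nonpositive. -/
lemma boundary_min {f : ℂ → ℂ} {f' y : ℂ} (hy : ‖y‖ = 1) (hf : HasDerivAt f f' y)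
    (hmin : ∀ z, ‖z‖ ≤ 1 → (f y).re ≤ (f z).re) : (y * f').im = 0 ∧ (y * f').re ≤ 0 := by
  apply real_nonpos_of_forall
  intro ζ hζ
  have hF : HasFDerivAt (fun z : ℂ => (f z).re)
      (Complex.reCLM.comp ((ContinuousLinearMap.toSpanSingleton ℂ f').restrictScalars ℝ)) y := by
    exact Complex.reCLM.hasFDerivAt.comp y (hf.hasFDerivAt.restrictScalars ℝ)
  have hmin' : IsMinOn (fun z : ℂ => (f z).re) (closedBall 0 1) y := by
    intro z hz
    exact hmin z (by simpa using hz)
  have hloc : IsLocalMinOn (fun z : ℂ => (f z).re) (closedBall 0 1) y := hmin'.localize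
  have hcone : y * (ζ - 1) ∈ posTangentConeAt (closedBall (0 : ℂ) 1) y := by
    apply mem_posTangentConeAt_of_segment_subset
    apply (convex_closedBall (0 : ℂ) 1).segment_subset
    · simp [hy]
    · have : y + y * (ζ - 1) = y * ζ := by ring
      rw [this]
      simp [hy, hζ]
  have := hloc.hasFDerivWithinAt_nonneg hF.hasFDerivWithinAt hcone
  have h2 : y * f' * (ζ - 1) = (y * (ζ - 1)) * f' := by ring
  rw [h2]
  simpa using this

/-- A consequence of the Schwarz lemma for self maps of the disc not fixing the origin. -/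
lemma schwarz_pick_zero {f : ℂ → ℂ} (hd : DifferentiableOn ℂ f (ball 0 1))
    (hb : ∀ z, ‖z‖ < 1 → ‖f z‖ < 1) {z : ℂ} (hz : ‖z‖ < 1) :
    (1 - ‖f 0‖) ^ 2 * (1 - ‖z‖ ^ 2) ≤ (1 - ‖f 0‖ ^ 2) * (1 - ‖f z‖ ^ 2) := by
  set a : ℂ := f 0 with ha
  have ha1 : ‖a‖ < 1 := hb 0 (by simp)
  have hden : ∀ w : ℂ, ‖w‖ < 1 → 1 - conj a * w ≠ 0 := by
    intro w hw h0
    have h1 : conj a * w = 1 := by linear_combination -h0
    have h2 : ‖conj a * w‖ < 1 := by
      rw [norm_mul, RCLike.norm_conj]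
      nlinarith [norm_nonneg a, norm_nonneg w]
    rw [h1] at h2
    simp at h2
  have hkey : ∀ w : ℂ, ‖1 - conj a * w‖ ^ 2 - ‖w - a‖ ^ 2 = (1 - ‖a‖ ^ 2) * (1 - ‖w‖ ^ 2) := by
    intro w
    simp only [← Complex.normSq_eq_norm_sq, Complex.normSq_apply]
    simp only [Complex.sub_re, Complex.sub_im, Complex.mul_re, Complex.mul_im, Complex.one_re,
      Complex.one_im, Complex.conj_re, Complex.conj_im]
    ring
  set g : ℂ → ℂ := fun w => (f w - a) / (1 - conj a * f w) with hg
  have hgd : DifferentiableOn ℂ g (ball 0 1) := by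
    apply DifferentiableOn.div
    · exact hd.sub_const a
    · exact (hd.const_mul _).const_sub 1
    · intro w hw
      exact hden _ (hb w (by simpa using hw))
  have hgb : ∀ w, ‖w‖ < 1 → ‖g w‖ ≤ 1 := by
    intro w hw
    have h1 := hkey (f w)
    have h2 := hb w hw
    have h3 : 0 ≤ (1 - ‖a‖ ^ 2) * (1 - ‖f w‖ ^ 2) := by
      apply mul_nonneg <;> nlinarith [norm_nonneg a, norm_nonneg (f w)]
    have h4 : ‖f w - a‖ ≤ ‖1 - conj a * f w‖ := by
      have h5 := norm_nonneg (f w - a)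
      have h6 := norm_nonneg (1 - conj a * f w)
      nlinarith
    rw [hg]
    simp only
    rw [norm_div]
    exact div_le_one_of_le₀ h4 (norm_nonneg _)
  have hg0 : g 0 = 0 := by simp [hg, ha]
  have hgz : ‖g z‖ ≤ ‖z‖ := by
    apply Complex.norm_le_norm_of_mapsTo_ball (R := 1) hgd
    · intro w hw
      simpa using hgb w (by simpa using hw)
    · exact hg0
    · simpa using hz
  have h1 := hkey (f z)
  have hD : 0 < ‖1 - conj a * f z‖ := norm_pos_iff.mpr (hden _ (hb z hz))
  have h2 : ‖f z - a‖ ≤ ‖z‖ * ‖1 - conj a * f z‖ := by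
    have : ‖g z‖ = ‖f z - a‖ / ‖1 - conj a * f z‖ := by rw [hg]; simp
    rw [this, div_le_iff₀ hD] at hgz
    exact hgz
  have h3 : 1 - ‖a‖ ≤ ‖1 - conj a * f z‖ := by
    have h4 : ‖(1 : ℂ)‖ - ‖conj a * f z‖ ≤ ‖1 - conj a * f z‖ := norm_sub_norm_le _ _
    rw [norm_mul, RCLike.norm_conj, norm_one] at h4
    have h5 := (hb z hz).le
    nlinarith [norm_nonneg a, norm_nonneg (f z)]
  have h4 : ‖f z - a‖ ^ 2 ≤ ‖z‖ ^ 2 * ‖1 - conj a * f z‖ ^ 2 := by
    rw [← mul_pow]
    exact pow_le_pow_left₀ (norm_nonneg _) h2 2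
  have h5 : (1 - ‖a‖) ^ 2 ≤ ‖1 - conj a * f z‖ ^ 2 :=
    pow_le_pow_left₀ (by linarith) h3 2
  have h6 : 0 ≤ 1 - ‖z‖ ^ 2 := by nlinarith [norm_nonneg z]
  calc (1 - ‖a‖) ^ 2 * (1 - ‖z‖ ^ 2) ≤ ‖1 - conj a * f z‖ ^ 2 * (1 - ‖z‖ ^ 2) := by gcongr
    _ ≤ (1 - ‖a‖ ^ 2) * (1 - ‖f z‖ ^ 2) := by nlinarith

/-- Boundary Schwarz-Pick lemma: for a holomorphic self map of the disc which has modulus one and is
differentiable at a boundary point `u`, the radial derivative of the modulus is positive. -/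
lemma boundary_schwarz {f : ℂ → ℂ} {f' u : ℂ} (hu : ‖u‖ = 1)
    (hd : DifferentiableOn ℂ f (ball 0 1)) (hb : ∀ z, ‖z‖ < 1 → ‖f z‖ < 1)
    (hf : HasDerivAt f f' u) (hfu : ‖f u‖ = 1) : 0 < (conj (f u) * (u * f')).re := by
  set c : ℝ := (1 - ‖f 0‖) ^ 2 / (1 - ‖f 0‖ ^ 2) with hc
  have h0 : ‖f 0‖ < 1 := hb 0 (by simp)
  have h0' : 0 < 1 - ‖f 0‖ ^ 2 := by nlinarith [norm_nonneg (f 0)]
  have hcpos : 0 < c := by
    rw [hc]
    apply div_pos _ h0'
    have : 0 < 1 - ‖f 0‖ := by linarith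
    positivity
  have hineq : ∀ z : ℂ, ‖z‖ < 1 → c * (1 - ‖z‖ ^ 2) ≤ 1 - ‖f z‖ ^ 2 := by
    intro z hz
    have h1 := schwarz_pick_zero hd hb hz
    rw [hc, div_mul_eq_mul_div, div_le_iff₀ h0']
    linarith
  -- the real function `s ↦ 1 - ‖f (s u)‖² - c (1 - s²)`
  have hder : HasDerivAt (fun s : ℝ => f ((s : ℂ) * u)) (f' * u) 1 := by
    have h1 : HasDerivAt (fun s : ℝ => (s : ℂ) * u) (1 * u) 1 :=
      (Complex.ofRealCLM.hasDerivAt (x := (1 : ℝ))).mul_const u
    have h2 : HasDerivAt f f' (((1 : ℝ) : ℂ) * u) := by simpa using hf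
    have h3 := HasDerivAt.scomp (1 : ℝ) h2 h1
    simpa [mul_comm, Function.comp_def] using h3
  have hsq : HasDerivAt (fun s : ℝ => ‖f ((s : ℂ) * u)‖ ^ 2) (2 * (conj (f u) * (f' * u)).re) 1 := by
    have h1 := hder.norm_sq
    simpa [Complex.inner, mul_comm] using h1
  have hN : HasDerivAt (fun s : ℝ => 1 - ‖f ((s : ℂ) * u)‖ ^ 2 - c * (1 - s ^ 2))
      (- (2 * (conj (f u) * (f' * u)).re) + 2 * c) 1 := by
    have h1 : HasDerivAt (fun s : ℝ => c * (1 - s ^ 2)) (c * (-(2 * 1))) 1 := by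
      have h2 : HasDerivAt (fun s : ℝ => s ^ 2) (2 * 1) 1 := by
        simpa using hasDerivAt_pow 2 (1 : ℝ)
      exact (h2.const_sub 1).const_mul c
    have h2 := (hsq.const_sub 1).sub h1
    exact h2.congr_deriv (by ring)
  have hmin : IsMinOn (fun s : ℝ => 1 - ‖f ((s : ℂ) * u)‖ ^ 2 - c * (1 - s ^ 2)) (Icc 0 1) 1 := by
    intro s hs
    simp only [Set.mem_ofPred_eq]
    rcases eq_or_lt_of_le hs.2 with h1 | h1
    · rw [h1]
    · have h2 : ‖(s : ℂ) * u‖ = s := by
        rw [norm_mul, hu, mul_one, Complex.norm_real, Real.norm_eq_abs, abs_of_nonneg hs.1]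
      have h3 := hineq ((s : ℂ) * u) (by rw [h2]; exact h1)
      rw [h2] at h3
      simp only [Complex.ofReal_one, one_mul, hfu]
      linarith
  have hcone : (-1 : ℝ) ∈ posTangentConeAt (Icc (0 : ℝ) 1) 1 := by
    apply mem_posTangentConeAt_of_segment_subset
    apply (convex_Icc (0 : ℝ) 1).segment_subset
    · simp
    · simp
  have hfin := hmin.localize.hasFDerivWithinAt_nonneg hN.hasFDerivAt.hasFDerivWithinAt hcone
  simp only [ContinuousLinearMap.toSpanSingleton_apply, smul_eq_mul] at hfin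
  have h7 : conj (f u) * (u * f') = conj (f u) * (f' * u) := by ring
  rw [h7]
  linarith

lemma conj_of_norm_one {z : ℂ} (hz : ‖z‖ = 1) : conj z * z = 1 := by
  rw [← Complex.normSq_eq_conj_mul_self, Complex.normSq_eq_norm_sq, hz]
  simp

lemma ratio_add_conj {z u : ℂ} (hz : ‖z‖ = 1) (hu : ‖u‖ = 1) (hzu : z ≠ u) :
    z / (z - u) + conj (z / (z - u)) = 1 := by
  have h1 := conj_of_norm_one hz
  have h2 := conj_of_norm_one hu
  have hz0 : z ≠ 0 := by rintro rfl; simp at hz
  have hu0 : u ≠ 0 := by rintro rfl; simp at hu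
  have h3 : z - u ≠ 0 := sub_ne_zero.mpr hzu
  have hcz : conj z = z⁻¹ := by field_simp; linear_combination h1
  have hcu : conj u = u⁻¹ := by field_simp; linear_combination h2
  have h4 : u - z ≠ 0 := sub_ne_zero.mpr hzu.symm
  rw [map_div₀, map_sub, hcz, hcu]
  have h5 : z⁻¹ / (z⁻¹ - u⁻¹) = u / (u - z) := by
    have h6 : z⁻¹ - u⁻¹ = (u - z) / (z * u) := by field_simp
    rw [h6]
    field_simp
  rw [h5]
  have h7 : u / (u - z) = - (u / (z - u)) := by
    rw [← neg_sub z u, div_neg]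
  rw [h7]
  field_simp
  ring

lemma add_conj_of_re {p : ℂ} (hp : p.re = 1 / 2) : p + conj p = 1 := by
  rw [Complex.add_conj, hp]
  norm_num

/-- The algebra on the unit circle behind the argument.  Here `x0 = L[k e_z e_u]/B`, `q = φ(z)`,
`p = φ(u)`. -/
lemma circle_algebra {z u p q x0 : ℂ} (hz : ‖z‖ = 1) (hu : ‖u‖ = 1) (hzu : z ≠ u)
    (hp : p.re = 1 / 2) (hx : (z - u) * x0 = z * q - u * p) (him : (x0 - p * q).im = 0) :
    p * (z - u) = z ∨ q.re = 1 / 2 := by
  have h3 : z - u ≠ 0 := sub_ne_zero.mpr hzu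
  have hκ := ratio_add_conj hz hu hzu
  have hpp := add_conj_of_re hp
  set κ : ℂ := z / (z - u) with hκdef
  have hκz : κ * (z - u) = z := by rw [hκdef]; field_simp
  have hx0 : x0 = κ * q + (1 - κ) * p := by
    have h5 : (z - u) * x0 = (z - u) * (κ * q + (1 - κ) * p) := by
      rw [hx]
      linear_combination (-(q - p)) * hκz
    exact mul_left_cancel₀ h3 h5
  have hck : conj κ = 1 - κ := by linear_combination hκ
  have hcp : conj p = 1 - p := by linear_combination hpp
  have hD : conj (x0 - p * q) = x0 - p * q := by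
    rw [Complex.conj_eq_iff_im]
    exact him
  rw [hx0] at hD
  simp only [map_sub, map_add, map_mul, map_one, hck, hcp] at hD
  have hfac : (κ - p) * (q + conj q - 1) = 0 := by linear_combination -hD
  rcases mul_eq_zero.mp hfac with h | h
  · left
    have : p = κ := by linear_combination -h
    rw [this]
    exact hκz
  · right
    have h6 := congrArg Complex.re h
    simp only [Complex.sub_re, Complex.add_re, Complex.conj_re, Complex.one_re,
      Complex.zero_re] at h6
    linarith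

lemma circle_algebra_pos {z u p q x0 : ℂ} (hzu : z ≠ u)
    (hp : p.re = 1 / 2) (hx : (z - u) * x0 = z * q - u * p) (hk : p * (z - u) = z) :
    0 < (x0 - p * q).re := by
  have h3 : z - u ≠ 0 := sub_ne_zero.mpr hzu
  have hpp := add_conj_of_re hp
  have hx0 : x0 = p * q + (1 - p) * p := by
    have h5 : (z - u) * x0 = (z - u) * (p * q + (1 - p) * p) := by
      rw [hx]
      linear_combination (-(q - p)) * hk
    exact mul_left_cancel₀ h3 h5
  have hcp : 1 - p = conj p := by linear_combination -hpp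
  rw [hx0, hcp]
  have h4 : p * q + conj p * p - p * q = conj p * p := by ring
  rw [h4, ← Complex.normSq_eq_conj_mul_self, Complex.ofReal_re, Complex.normSq_pos]
  rintro rfl
  norm_num at hp

end Pool.Agent.H26.HC
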