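import Mathlib

/-!
If a function on the closed bidisc, holomorphic in each variable, has no zeros at points with
`‖y‖ = ‖w‖ ≤ 1`, then it has no zeros in the closed bidisc.
-/

set_option autoImplicit false

open Complex Metric Set

namespace Pool.Agent.H26.HC

/-- minimum modulus on a disc for zero-free functions -/
lemma min_modulus {g : ℂ → ℂ} {r c : ℝ} (hr : 0 < r) (hc : 0 < c)
    (hd : ∀ z : ℂ, ‖z‖ ≤ r → DifferentiableAt ℂ g z) (hne : ∀ z : ℂ, ‖z‖ ≤ r → g z ≠ 0)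
    (hb : ∀ z : ℂ, ‖z‖ = r → c ≤ ‖g z‖) {z : ℂ} (hz : ‖z‖ ≤ r) : c ≤ ‖g z‖ := by
  have hdc : DiffContOnCl ℂ (fun z => (g z)⁻¹) (ball 0 r) := by
    apply DifferentiableOn.diffContOnCl
    rw [closure_ball _ hr.ne']
    intro v hv
    have hv1 : ‖v‖ ≤ r := by simpa using hv
    exact ((hd v hv1).inv (hne v hv1)).differentiableWithinAt
  have h1 : ‖(g z)⁻¹‖ ≤ c⁻¹ := by
    apply Complex.norm_le_of_forall_mem_frontier_norm_le isBounded_ball hdc
    · intro v hv
      have hv1 : ‖v‖ = r := by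
        rw [frontier_ball _ hr.ne'] at hv
        simpa using hv
      rw [norm_inv]
      exact inv_anti₀ hc (hb v hv1)
    · rw [closure_ball _ hr.ne']
      simpa using hz
  rw [norm_inv] at h1
  have h2 : 0 < ‖g z‖ := norm_pos_iff.mpr (hne z hz)
  exact (inv_le_inv₀ h2 hc).mp h1

theorem bidisc_ne {F : ℂ → ℂ → ℂ}
    (hcont : ContinuousOn (fun p : ℂ × ℂ => F p.1 p.2) (closedBall 0 1 ×ˢ closedBall 0 1))
    (hd1 : ∀ y w : ℂ, ‖y‖ ≤ 1 → ‖w‖ ≤ 1 → DifferentiableAt ℂ (fun y => F y w) y)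
    (hd2 : ∀ y w : ℂ, ‖y‖ ≤ 1 → ‖w‖ ≤ 1 → DifferentiableAt ℂ (fun w => F y w) w)
    (hne : ∀ y w : ℂ, ‖y‖ ≤ 1 → ‖y‖ = ‖w‖ → F y w ≠ 0) :
    ∀ y w : ℂ, ‖y‖ ≤ 1 → ‖w‖ ≤ 1 → F y w ≠ 0 := by
  set K : Set (ℂ × ℂ) := closedBall 0 1 ×ˢ closedBall 0 1 with hK
  have hKc : IsCompact K := (isCompact_closedBall _ _).prod (isCompact_closedBall _ _)
  -- lower bound on the diagonal part
  obtain ⟨c, hc, hlow⟩ : ∃ c : ℝ, 0 < c ∧ ∀ y w : ℂ, ‖y‖ ≤ 1 → ‖y‖ = ‖w‖ → c ≤ ‖F y w‖ := by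
    set E : Set (ℂ × ℂ) := K ∩ {p | ‖p.1‖ = ‖p.2‖} with hE
    have hEc : IsCompact E := by
      apply hKc.inter_right
      exact isClosed_eq (by fun_prop) (by fun_prop)
    have hEn : E.Nonempty := ⟨(0, 0), by simp [hE, hK]⟩
    obtain ⟨p, hp, hpmin⟩ := hEc.exists_isMinOn hEn (f := fun p : ℂ × ℂ => ‖F p.1 p.2‖)
      ((hcont.mono inter_subset_left).norm)
    refine ⟨‖F p.1 p.2‖, ?_, ?_⟩
    · apply norm_pos_iff.mpr
      apply hne
      · have := hp.1.1
        simpa using this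
      · exact hp.2
    · intro y w hy hyw
      have hmem : (y, w) ∈ E := by
        refine ⟨⟨by simpa using hy, ?_⟩, hyw⟩
        simp only [mem_closedBall, dist_zero_right]
        rw [← hyw]; exact hy
      exact hpmin hmem
  intro y w hy hw hzero
  set Z : Set (ℂ × ℂ) := K ∩ (fun p : ℂ × ℂ => F p.1 p.2) ⁻¹' {0} with hZ
  have hZc : IsCompact Z := by
    apply hKc.of_isClosed_subset
      (hcont.preimage_isClosed_of_isClosed hKc.isClosed isClosed_singleton)
    exact inter_subset_left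
  have hZn : Z.Nonempty := ⟨(y, w), ⟨⟨by simpa using hy, by simpa using hw⟩, hzero⟩⟩
  obtain ⟨p, hpZ, hpmin⟩ := hZc.exists_isMinOn hZn (f := fun p : ℂ × ℂ => max ‖p.1‖ ‖p.2‖)
    (by fun_prop)
  obtain ⟨y0, w0⟩ := p
  obtain ⟨⟨hy0, hw0⟩, hF0⟩ := hpZ
  simp only [mem_closedBall, dist_zero_right] at hy0 hw0
  have hF0' : F y0 w0 = 0 := hF0
  set r : ℝ := max ‖y0‖ ‖w0‖ with hr
  have hr1 : r ≤ 1 := max_le hy0 hw0
  have hr0 : 0 < r := by
    rcases (le_max_of_le_left (norm_nonneg y0) : (0 : ℝ) ≤ max ‖y0‖ ‖w0‖).eq_or_lt with h | h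
    · exfalso
      have h1 : ‖y0‖ ≤ 0 := by rw [h]; exact le_max_left _ _
      have h2 : ‖w0‖ ≤ 0 := by rw [h]; exact le_max_right _ _
      have h3 : y0 = 0 := norm_le_zero_iff.mp h1
      have h4 : w0 = 0 := norm_le_zero_iff.mp h2
      apply hne y0 w0 hy0 _ hF0'
      rw [h3, h4]
    · exact h
  -- no zeros in the open bidisc of radius `r`
  have hopen : ∀ y w : ℂ, ‖y‖ < r → ‖w‖ < r → F y w ≠ 0 := by
    intro y w hy hw h
    have hmem : (y, w) ∈ Z := by
      refine ⟨⟨?_, ?_⟩, h⟩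
      · simpa using (hy.le.trans hr1)
      · simpa using (hw.le.trans hr1)
    have h1 := hpmin hmem
    simp only [Set.mem_ofPred_eq] at h1
    have h2 : max ‖y‖ ‖w‖ < r := max_lt hy hw
    linarith
  -- lower bound in smaller closed bidiscs
  have hbound : ∀ t : ℝ, 0 < t → t < r → ∀ y w : ℂ, ‖y‖ ≤ t → ‖w‖ ≤ t → c ≤ ‖F y w‖ := by
    intro t ht0 htr y w hy hw
    have ht1 : t ≤ 1 := htr.le.trans hr1
    apply min_modulus (g := fun w => F y w) ht0 hc
    · intro v hv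
      exact hd2 y v (hy.trans ht1) (hv.trans ht1)
    · intro v hv
      exact hopen y v (hy.trans_lt htr) (hv.trans_lt htr)
    · intro v hv
      apply min_modulus (g := fun y => F y v) ht0 hc
      · intro x hx
        exact hd1 x v (hx.trans ht1) (hv.le.trans ht1)
      · intro x hx
        exact hopen x v (hx.trans_lt htr) (hv.le.trans_lt htr)
      · intro x hx
        exact hlow x v (hx.le.trans ht1) (by rw [hx, hv])
      · exact hy
    · exact hw
  -- pass to the limit along `s ↦ (s y0, s w0)`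
  have hlim : ContinuousWithinAt (fun s : ℝ => ‖F (s * y0) (s * w0)‖) (Ioo 0 1) 1 := by
    have h1 : ContinuousOn (fun s : ℝ => ‖F (s * y0) (s * w0)‖) (Icc 0 1) := by
      apply ContinuousOn.norm
      apply hcont.comp (f := fun s : ℝ => ((s : ℂ) * y0, (s : ℂ) * w0)) (by fun_prop)
      intro s hs
      have hsn : ‖(s : ℂ)‖ ≤ 1 := by
        rw [Complex.norm_real, Real.norm_eq_abs, abs_of_nonneg hs.1]; exact hs.2
      refine ⟨?_, ?_⟩
      · simp only [mem_closedBall, dist_zero_right, norm_mul]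
        nlinarith [norm_nonneg (s : ℂ), norm_nonneg y0]
      · simp only [mem_closedBall, dist_zero_right, norm_mul]
        nlinarith [norm_nonneg (s : ℂ), norm_nonneg w0]
    exact (h1 1 (by simp)).mono Ioo_subset_Icc_self
  have hcl : (1 : ℝ) ∈ closure (Ioo (0 : ℝ) 1) := by
    rw [closure_Ioo (by norm_num)]
    simp
  have h1 := hlim.mem_closure_image hcl
  have h2 : closure ((fun s : ℝ => ‖F (s * y0) (s * w0)‖) '' Ioo 0 1) ⊆ Ici c := by
    apply closure_minimal _ isClosed_Ici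
    rintro _ ⟨s, hs, rfl⟩
    simp only [mem_Ici]
    have hsn : ‖(s : ℂ)‖ = s := by
      rw [Complex.norm_real, Real.norm_eq_abs, abs_of_nonneg hs.1.le]
    apply hbound (s * r) (mul_pos hs.1 hr0) (by nlinarith [hs.1, hs.2])
    · rw [norm_mul, hsn]
      exact mul_le_mul_of_nonneg_left (le_max_left _ _) hs.1.le
    · rw [norm_mul, hsn]
      exact mul_le_mul_of_nonneg_left (le_max_right _ _) hs.1.le
  have h3 := h2 h1
  simp only [mem_Ici, Complex.ofReal_one, one_mul, hF0', norm_zero] at h3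
  linarith

end Pool.Agent.H26.HC
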