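import Pool.Agent.H26.HCScale
import Pool.Agent.H26.HCBidisc

/-!
Connection between Hadamard products and the circle functional, and the final theorem.
-/

set_option autoImplicit false

open Complex Metric Set MeasureTheory
open scoped ComplexConjugate

namespace Pool.Agent.H26.HC

/-- Cauchy's formula for Taylor coefficients as an integral over the angle. -/
lemma integral_coeff {φ : ℂ → ℂ} (hφ : DifferentiableOn ℂ φ (ball 0 1)) {R : ℝ} (hR0 : 0 < R)
    (hR1 : R < 1) (n : ℕ) :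
    ∫ θ in (0 : ℝ)..(2 * Real.pi), φ (circleMap 0 R θ) * ((circleMap 0 R θ)⁻¹) ^ n
      = (2 * Real.pi) * (iteratedDeriv n φ 0 / (n.factorial : ℂ)) := by
  have hc : DifferentiableOn ℂ φ (closedBall 0 R) :=
    hφ.mono (closedBall_subset_ball hR1)
  have h1 := hc.circleIntegral_one_div_sub_center_pow_smul hR0 n
  unfold circleIntegral at h1
  have h2 : (∫ θ in (0 : ℝ)..(2 * Real.pi), deriv (circleMap 0 R) θ •
      (1 / (circleMap 0 R θ - 0) ^ (n + 1)) • φ (circleMap 0 R θ))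
      = I * ∫ θ in (0 : ℝ)..(2 * Real.pi), φ (circleMap 0 R θ) * ((circleMap 0 R θ)⁻¹) ^ n := by
    rw [← intervalIntegral.integral_const_mul]
    apply intervalIntegral.integral_congr
    intro θ _
    have hne : circleMap 0 R θ ≠ 0 := circleMap_ne_center hR0.ne'
    simp only [deriv_circleMap, smul_eq_mul, sub_zero, inv_pow, pow_succ]
    field_simp
  rw [h2] at h1
  have h3 : I * (∫ θ in (0 : ℝ)..(2 * Real.pi), φ (circleMap 0 R θ) * ((circleMap 0 R θ)⁻¹) ^ n)
      = I * ((2 * Real.pi) * (iteratedDeriv n φ 0 / (n.factorial : ℂ))) := by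
    rw [h1, smul_eq_mul]
    ring
  exact mul_left_cancel₀ I_ne_zero h3

/-- The Hadamard product as an integral over a circle. -/
lemma hadamard_eq {φ f : ℂ → ℂ} (hφ : DifferentiableOn ℂ φ (ball 0 1))
    (hf : DifferentiableOn ℂ f (ball 0 1)) {R : ℝ} (hR0 : 0 < R)
    (hR1 : R < 1) {z : ℂ} (hz : ‖z‖ < R) :
    (2 * Real.pi) * (∑' n : ℕ, (iteratedDeriv n φ 0 / (n.factorial : ℂ)) *
        (iteratedDeriv n f 0 / (n.factorial : ℂ)) * z ^ n)
      = ∫ θ in (0 : ℝ)..(2 * Real.pi), φ (circleMap 0 R θ) * f (z * (circleMap 0 R θ)⁻¹) := by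
  have hcirc : ∀ θ : ℝ, circleMap 0 R θ ∈ ball (0 : ℂ) 1 := by
    intro θ
    simp [abs_of_pos hR0, hR1]
  have hcont : Continuous (fun θ : ℝ => φ (circleMap 0 R θ)) :=
    hφ.continuousOn.comp_continuous (continuous_circleMap 0 R) hcirc
  have hne : ∀ θ : ℝ, circleMap 0 R θ ≠ 0 := fun θ => circleMap_ne_center hR0.ne'
  have hnorm : ∀ θ : ℝ, ‖z * (circleMap 0 R θ)⁻¹‖ = ‖z‖ / R := by
    intro θ
    rw [norm_mul, norm_inv, norm_circleMap_zero, abs_of_pos hR0, div_eq_mul_inv]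
  set ρ : ℝ := ‖z‖ / R with hρ
  have hρ0 : 0 ≤ ρ := by positivity
  have hρ1 : ρ < 1 := by rw [hρ, div_lt_one hR0]; exact hz
  obtain ⟨M, hM⟩ := isCompact_Icc.exists_bound_of_continuousOn
    (f := fun θ : ℝ => φ (circleMap 0 R θ)) (s := Icc 0 (2 * Real.pi)) hcont.continuousOn
  -- summability
  have hsumρ := Complex.hasSum_taylorSeries_on_ball (c := 0) (r := 1) (f := f) hf
    (z := (ρ : ℂ)) (by simp [abs_of_nonneg hρ0, hρ1])
  have hsumn : Summable (fun n : ℕ => ‖iteratedDeriv n f 0 / (n.factorial : ℂ)‖ * ρ ^ n) := by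
    have h1 := hsumρ.summable.norm
    refine h1.congr ?_
    intro n
    simp only [sub_zero, smul_eq_mul, norm_mul, norm_inv, norm_pow, norm_div, Complex.norm_real,
      Real.norm_eq_abs, abs_of_nonneg hρ0]
    ring
  have hS : HasSum (fun n : ℕ => ∫ θ in (0 : ℝ)..(2 * Real.pi),
      φ (circleMap 0 R θ) * ((iteratedDeriv n f 0 / (n.factorial : ℂ)) *
        (z * (circleMap 0 R θ)⁻¹) ^ n))
      (∫ θ in (0 : ℝ)..(2 * Real.pi), φ (circleMap 0 R θ) * f (z * (circleMap 0 R θ)⁻¹)) := by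
    apply intervalIntegral.hasSum_integral_of_dominated_convergence
      (fun n _ => M * (‖iteratedDeriv n f 0 / (n.factorial : ℂ)‖ * ρ ^ n))
    · intro n
      apply Continuous.aestronglyMeasurable
      apply hcont.mul
      apply continuous_const.mul
      apply Continuous.pow
      apply continuous_const.mul
      exact (continuous_circleMap 0 R).inv₀ hne
    · intro n
      refine Filter.Eventually.of_forall ?_
      intro θ hθ
      rw [uIoc_of_le (by positivity)] at hθ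
      have h1 := hM θ ⟨hθ.1.le, hθ.2⟩
      rw [norm_mul, norm_mul, norm_pow, hnorm]
      exact mul_le_mul_of_nonneg_right h1 (by positivity)
    · refine Filter.Eventually.of_forall ?_
      intro θ hθ
      exact hsumn.mul_left M
    · exact intervalIntegrable_const
    · refine Filter.Eventually.of_forall ?_
      intro θ hθ
      apply HasSum.mul_left
      have h1 := Complex.hasSum_taylorSeries_on_ball (c := 0) (r := 1) (f := f) hf
        (z := z * (circleMap 0 R θ)⁻¹) (by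
          rw [mem_ball, dist_zero_right, hnorm]; exact hρ1)
      have h2 : (fun n : ℕ => (iteratedDeriv n f 0 / (n.factorial : ℂ)) *
          (z * (circleMap 0 R θ)⁻¹) ^ n) = (fun n : ℕ => ((n.factorial : ℂ))⁻¹ •
            (z * (circleMap 0 R θ)⁻¹ - 0) ^ n • iteratedDeriv n f 0) := by
        funext n
        simp only [sub_zero, smul_eq_mul]
        ring
      rw [h2]
      exact h1
  rw [← hS.tsum_eq, ← tsum_mul_left]
  congr 1
  funext n
  have h1 := integral_coeff hφ hR0 hR1 n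
  have h2 : (∫ θ in (0 : ℝ)..(2 * Real.pi),
      φ (circleMap 0 R θ) * ((iteratedDeriv n f 0 / (n.factorial : ℂ)) *
        (z * (circleMap 0 R θ)⁻¹) ^ n))
      = ((iteratedDeriv n f 0 / (n.factorial : ℂ)) * z ^ n) *
        ∫ θ in (0 : ℝ)..(2 * Real.pi), φ (circleMap 0 R θ) * ((circleMap 0 R θ)⁻¹) ^ n := by
    rw [← intervalIntegral.integral_const_mul]
    apply intervalIntegral.integral_congr
    intro θ _
    simp only [mul_pow]
    ring
  rw [h2, h1]
  ring

/-- The kernel is holomorphic in the unit disc. -/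
lemma kernel_diff {x : ℂ} (hx : ‖x‖ = 1) (c d : ℂ) :
    DifferentiableOn ℂ (fun w : ℂ => (1 + x * w) ^ c * (1 - w) ^ d) (ball 0 1) := by
  intro w hw
  have hw1 : ‖w‖ < 1 := by simpa using hw
  apply DifferentiableAt.differentiableWithinAt
  apply DifferentiableAt.mul
  · apply DifferentiableAt.cpow_const (by fun_prop)
    apply Complex.mem_slitPlane_of_norm_lt_one
    rw [norm_mul, hx, one_mul]; exact hw1
  · apply DifferentiableAt.cpow_const (by fun_prop)
    have : 1 - w = 1 + (-w) := by ring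
    rw [this]
    apply Complex.mem_slitPlane_of_norm_lt_one
    rw [norm_neg]; exact hw1

/-- The theorem for an arbitrary point. -/
theorem hadamard_lower (α β : ℝ) (hα : 1 ≤ α) (hβ : 1 ≤ β) (φ : ℂ → ℂ)
    (hφ : DifferentiableOn ℂ φ (ball (0 : ℂ) 1))
    (hN : ∀ x : ℂ, ‖x‖ = 1 → ∀ z : ℂ, ‖z‖ < 1 →
      (∑' n : ℕ, (iteratedDeriv n φ 0 / (n.factorial : ℂ)) *
        (iteratedDeriv n (fun w : ℂ => (1 + x * w) ^ (α : ℂ) * (1 - w) ^ (-(β : ℂ))) 0
          / (n.factorial : ℂ)) * z ^ n) ≠ 0)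
    (x0 : ℂ) (hx0 : ‖x0‖ = 1) (z0 : ℂ) (hz0 : ‖z0‖ < 1) :
      (∑' n : ℕ, (iteratedDeriv n φ 0 / (n.factorial : ℂ)) *
        (iteratedDeriv n (fun w : ℂ => (1 + x0 * w) ^ ((α : ℂ) - 1) * (1 - w) ^ (-(β : ℂ))) 0
          / (n.factorial : ℂ)) * z0 ^ n) ≠ 0 := by
  obtain ⟨r, hr1, hr2⟩ := exists_between hz0
  obtain ⟨R, hR1, hR2⟩ := exists_between hr2
  have hr0 : 0 < r := (norm_nonneg z0).trans_lt hr1
  have hR0 : 0 < R := hr0.trans hR1
  have hcirc : ∀ θ : ℝ, circleMap 0 R θ ∈ ball (0 : ℂ) 1 := by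
    intro θ
    simp [abs_of_pos hR0, hR2]
  set ψ : ℝ → ℂ := fun θ => φ (circleMap 0 R θ) with hψdef
  set τ : ℝ → ℂ := fun θ => (r : ℂ) * (circleMap 0 R θ)⁻¹ with hτdef
  have hψ : Continuous ψ := hφ.continuousOn.comp_continuous (continuous_circleMap 0 R) hcirc
  have hτ : Continuous τ :=
    continuous_const.mul ((continuous_circleMap 0 R).inv₀ (fun θ => circleMap_ne_center hR0.ne'))
  have hb : ∀ θ, ‖τ θ‖ ≤ r / R := by
    intro θ
    rw [hτdef]
    simp only [norm_mul, norm_inv, norm_circleMap_zero, Complex.norm_real, Real.norm_eq_abs,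
      abs_of_pos hR0, abs_of_pos hr0]
    rw [div_eq_mul_inv]
  have h0 : r / R < 1 := by rw [div_lt_one hR0]; exact hR1
  -- Hadamard products in terms of the functional
  have hH : ∀ (c d x w : ℂ), ‖x‖ = 1 → ‖w‖ ≤ 1 →
      (2 * Real.pi) * (∑' n : ℕ, (iteratedDeriv n φ 0 / (n.factorial : ℂ)) *
        (iteratedDeriv n (fun w : ℂ => (1 + x * w) ^ c * (1 - w) ^ d) 0
          / (n.factorial : ℂ)) * (r * w) ^ n) = fB ψ τ c d (-(x * w)) w := by
    intro c d x w hx hw
    rw [hadamard_eq hφ (kernel_diff hx c d) hR0 hR2]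
    · unfold fB
      apply intervalIntegral.integral_congr
      intro θ _
      simp only [hψdef, hτdef]
      rw [show (1 : ℂ) + x * (r * w * (circleMap 0 R θ)⁻¹)
          = 1 - -(x * w) * (r * (circleMap 0 R θ)⁻¹) by ring,
        show (1 : ℂ) - r * w * (circleMap 0 R θ)⁻¹ = 1 - w * (r * (circleMap 0 R θ)⁻¹) by ring]
      ring
    · rw [norm_mul, Complex.norm_real, Real.norm_eq_abs, abs_of_pos hr0]
      nlinarith [norm_nonneg w]
  have h2pi : (2 * Real.pi : ℂ) ≠ 0 := by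
    have := Real.pi_ne_zero
    exact_mod_cast mul_ne_zero two_ne_zero this
  -- nonvanishing on the closed bidisc
  have hF : ∀ y w : ℂ, ‖y‖ ≤ 1 → ‖w‖ ≤ 1 →
      fB ψ τ (((α : ℂ) - 1) + 1) ((1 - (β : ℂ)) - 1) y w ≠ 0 := by
    have e1 : ((α : ℂ) - 1) + 1 = α := by ring
    have e2 : (1 - (β : ℂ)) - 1 = -(β : ℂ) := by ring
    rw [e1, e2]
    apply bidisc_ne
    · have h1 := continuousOn_fA_scaled hψ hτ hb h0 (α : ℂ) (-(β : ℂ))
      have h2 : ContinuousOn (fun p : ℂ × ℂ => fA ψ (fun θ => ((1 : ℝ) : ℂ) * τ θ) (α : ℂ) (-(β : ℂ))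
          0 p.1 p.2) (closedBall 0 1 ×ˢ closedBall 0 1) := by
        apply h1.comp (f := fun p : ℂ × ℂ => ((1 : ℝ), (0 : ℂ), p.1, p.2)) (by fun_prop)
        intro p hp
        exact ⟨by simp, by simp, hp.1, hp.2⟩
      refine h2.congr ?_
      intro p _
      unfold fA fB
      simp
    · intro y w hy hw
      obtain ⟨D, hD, _⟩ := hasDerivAt_fB_y hψ hτ hb h0 (α : ℂ) (-(β : ℂ)) hy hw
      exact hD.differentiableAt
    · intro y w hy hw
      obtain ⟨D, hD, _⟩ := hasDerivAt_fB_w hψ hτ hb h0 (α : ℂ) (-(β : ℂ)) hy hw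
      exact hD.differentiableAt
    · intro y w hy hyw
      have hw : ‖w‖ ≤ 1 := hyw ▸ hy
      obtain ⟨x, hx, hxy⟩ : ∃ x : ℂ, ‖x‖ = 1 ∧ y = -(x * w) := by
        by_cases hw0 : w = 0
        · refine ⟨1, by simp, ?_⟩
          rw [hw0, norm_zero, norm_eq_zero] at hyw
          rw [hyw, hw0]; simp
        · refine ⟨-(y / w), ?_, by field_simp⟩
          rw [norm_neg, norm_div, hyw, div_self (norm_ne_zero_iff.mpr hw0)]
      rw [hxy, ← hH (α : ℂ) (-(β : ℂ)) x w hx hw]
      apply mul_ne_zero h2pi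
      apply hN x hx
      rw [norm_mul, Complex.norm_real, Real.norm_eq_abs, abs_of_pos hr0]
      nlinarith [norm_nonneg w]
  -- the point at which we want to prove nonvanishing
  set w : ℂ := z0 / r with hw
  have hrC : (r : ℂ) ≠ 0 := by exact_mod_cast hr0.ne'
  have hwn : ‖w‖ ≤ 1 := by
    rw [hw, norm_div, Complex.norm_real, Real.norm_eq_abs, abs_of_pos hr0]
    rw [div_le_one hr0]
    exact hr1.le
  have hz : z0 = r * w := by rw [hw]; field_simp
  have hyn : ‖-(x0 * w)‖ ≤ 1 := by rw [norm_neg, norm_mul, hx0, one_mul]; exact hwn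
  intro hzero
  have h1 := hH ((α : ℂ) - 1) (-(β : ℂ)) x0 w hx0 hwn
  rw [← hz, hzero, mul_zero] at h1
  rcases hα.lt_or_eq with hα1 | hα1
  · have hstrict := strict_of_ne hψ hτ hb h0 hα1 hβ rfl rfl hF hwn hyn hwn
    have h2 : fB ψ τ ((α : ℂ) - 1) (-(β : ℂ)) (-(x0 * w)) w
        = fA ψ τ ((α : ℂ) - 1) (1 - (β : ℂ)) w (-(x0 * w)) w := by
      unfold fA fB
      apply intervalIntegral.integral_congr
      intro θ _
      have h3 : (1 - w * τ θ) ^ (-(β : ℂ)) = (1 - w * τ θ) ^ (1 - (β : ℂ)) * (1 - w * τ θ)⁻¹ := by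
        rw [show (-(β : ℂ)) = (1 - (β : ℂ)) - 1 by ring,
          Complex.cpow_sub _ _ (ne_zero_of_le hb h0 hwn θ), Complex.cpow_one, div_eq_mul_inv]
      simp only [h3]
      ring
    rw [h2] at h1
    rw [← h1, norm_zero] at hstrict
    exact absurd hstrict (not_lt.mpr (norm_nonneg _))
  · apply hF 0 w (by simp) hwn
    have e2 : (1 - (β : ℂ)) - 1 = -(β : ℂ) := by ring
    rw [e2, ← hα1]
    rw [← hα1] at h1
    refine Eq.trans ?_ h1.symm
    unfold fB
    apply intervalIntegral.integral_congr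
    intro θ _
    simp

end Pool.Agent.H26.HC
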