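import Mathlib

/-!
The analytic functional `h ↦ ∫ ψ(θ) h(τ(θ)) dθ` (with `|τ| ≤ τ0 < 1`) applied to the kernels
`(1 - y t)^a (1 - w t)^b (1 - u t)^{-1}`: continuity, derivatives and algebraic identities.
-/

set_option autoImplicit false

open Complex Metric Set MeasureTheory

namespace Pool.Agent.H26.HC

section general

variable {τ : ℝ → ℂ} {τ0 : ℝ}

lemma slit_of_le (hb : ∀ θ, ‖τ θ‖ ≤ τ0) (h0 : τ0 < 1) {y : ℂ} (hy : ‖y‖ ≤ 1) (θ : ℝ) :
    1 - y * τ θ ∈ slitPlane := by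
  have h1 : ‖-(y * τ θ)‖ < 1 := by
    rw [norm_neg, norm_mul]
    calc ‖y‖ * ‖τ θ‖ ≤ 1 * τ0 := by
          apply mul_le_mul hy (hb θ) (norm_nonneg _) zero_le_one
      _ < 1 := by linarith
  have := Complex.mem_slitPlane_of_norm_lt_one h1
  rwa [← sub_eq_add_neg] at this

lemma ne_zero_of_le (hb : ∀ θ, ‖τ θ‖ ≤ τ0) (h0 : τ0 < 1) {y : ℂ} (hy : ‖y‖ ≤ 1) (θ : ℝ) :
    1 - y * τ θ ≠ 0 := Complex.slitPlane_ne_zero (slit_of_le hb h0 hy θ)

lemma continuous_pow (hτ : Continuous τ) (hb : ∀ θ, ‖τ θ‖ ≤ τ0) (h0 : τ0 < 1) {y : ℂ}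
    (hy : ‖y‖ ≤ 1) (c : ℂ) : Continuous (fun θ => (1 - y * τ θ) ^ c) := by
  apply Continuous.cpow (by fun_prop) continuous_const
  intro θ
  exact slit_of_le hb h0 hy θ

lemma continuous_inv' (hτ : Continuous τ) (hb : ∀ θ, ‖τ θ‖ ≤ τ0) (h0 : τ0 < 1) {y : ℂ}
    (hy : ‖y‖ ≤ 1) : Continuous (fun θ => (1 - y * τ θ)⁻¹) := by
  apply Continuous.inv₀ (by fun_prop)
  intro θ
  exact ne_zero_of_le hb h0 hy θ

/-- Differentiation under the integral sign for `z ↦ ∫ m(θ) (1 - z τ(θ))^c dθ`. -/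
lemma hasDerivAt_J (hτ : Continuous τ) (hb : ∀ θ, ‖τ θ‖ ≤ τ0) (h0 : τ0 < 1)
    {m : ℝ → ℂ} (hm : Continuous m) (c : ℂ) {z : ℂ} (hz : ‖z‖ ≤ 1) :
    HasDerivAt (fun z => ∫ θ in (0 : ℝ)..(2 * Real.pi), m θ * (1 - z * τ θ) ^ c)
      (∫ θ in (0 : ℝ)..(2 * Real.pi), m θ * (c * (1 - z * τ θ) ^ (c - 1) * (- τ θ))) z := by
  have hτ0 : 0 ≤ τ0 := (norm_nonneg _).trans (hb 0)
  -- a slightly larger disc
  set R : ℝ := 2 / (1 + τ0) with hR
  have hR1 : 1 < R := by rw [hR, lt_div_iff₀ (by linarith)]; linarith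
  have hRτ : R * τ0 < 1 := by
    rw [hR, div_mul_eq_mul_div, div_lt_one (by linarith)]; linarith
  have hslit : ∀ x : ℂ, ‖x‖ ≤ R → ∀ θ, 1 - x * τ θ ∈ slitPlane := by
    intro x hx θ
    have h1 : ‖-(x * τ θ)‖ < 1 := by
      rw [norm_neg, norm_mul]
      calc ‖x‖ * ‖τ θ‖ ≤ R * τ0 := by
            apply mul_le_mul hx (hb θ) (norm_nonneg _) (by linarith)
        _ < 1 := hRτ
    have := Complex.mem_slitPlane_of_norm_lt_one h1
    rwa [← sub_eq_add_neg] at this
  have hcontF' : ContinuousOn (fun p : ℂ × ℝ =>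
      m p.2 * (c * (1 - p.1 * τ p.2) ^ (c - 1) * (- τ p.2)))
      (closedBall 0 R ×ˢ Icc (0 : ℝ) (2 * Real.pi)) := by
    apply ContinuousOn.mul (hm.comp continuous_snd).continuousOn
    apply ContinuousOn.mul
    · apply ContinuousOn.mul continuousOn_const
      apply ContinuousOn.cpow _ continuousOn_const
      · intro p hp
        exact hslit p.1 (by simpa using hp.1) p.2
      · fun_prop
    · fun_prop
  obtain ⟨M, hM⟩ := ((isCompact_closedBall (0 : ℂ) R).prod isCompact_Icc).exists_bound_of_continuousOn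
    hcontF'
  have hnhds : ball (0 : ℂ) R ∈ nhds z := by
    apply isOpen_ball.mem_nhds
    simp; linarith
  have hcontm : ∀ x : ℂ, ‖x‖ ≤ R → Continuous (fun θ => m θ * (1 - x * τ θ) ^ c) := by
    intro x hx
    apply hm.mul
    apply Continuous.cpow (by fun_prop) continuous_const
    exact hslit x hx
  refine (intervalIntegral.hasDerivAt_integral_of_dominated_loc_of_deriv_le
    (F := fun z θ => m θ * (1 - z * τ θ) ^ c)
    (F' := fun z θ => m θ * (c * (1 - z * τ θ) ^ (c - 1) * (- τ θ)))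
    (bound := fun _ => M) hnhds ?_ ?_ ?_ ?_ ?_ ?_).2
  · filter_upwards [hnhds] with x hx
    exact (hcontm x (by simpa using (mem_ball.mp hx).le)).aestronglyMeasurable
  · exact (hcontm z (by linarith)).intervalIntegrable _ _
  · apply Continuous.aestronglyMeasurable
    apply hm.mul
    apply Continuous.mul
    · apply continuous_const.mul
      apply Continuous.cpow (by fun_prop) continuous_const
      exact hslit z (by linarith)
    · fun_prop
  · refine Filter.Eventually.of_forall ?_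
    intro θ hθ x hx
    refine hM (x, θ) ⟨?_, ?_⟩
    · exact ball_subset_closedBall hx
    · rw [uIoc_of_le (by positivity)] at hθ
      exact ⟨hθ.1.le, hθ.2⟩
  · exact intervalIntegrable_const
  · refine Filter.Eventually.of_forall ?_
    intro θ _ x hx
    apply HasDerivAt.const_mul
    have h1 : HasDerivAt (fun z : ℂ => 1 - z * τ θ) (- τ θ) x := by
      simpa using ((hasDerivAt_id x).mul_const (τ θ)).const_sub 1
    exact h1.cpow_const (hslit x (by simpa using (mem_ball.mp hx).le) θ)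

/-- Joint continuity of parametric integrals on a subset of the parameter space. -/
lemma continuousOn_param {X : Type*} [TopologicalSpace X] {S : Set X} {f : X → ℝ → ℂ}
    (h : ContinuousOn (Function.uncurry f) (S ×ˢ univ)) :
    ContinuousOn (fun x => ∫ θ in (0 : ℝ)..(2 * Real.pi), f x θ) S := by
  rw [continuousOn_iff_continuous_domRestrict]
  have h2 : Continuous (Function.uncurry (fun (x : S) (θ : ℝ) => f x θ)) := by
    have h3 : (Function.uncurry (fun (x : S) (θ : ℝ) => f x θ))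
        = (Function.uncurry f) ∘ (fun p : S × ℝ => ((p.1 : X), p.2)) := by
      ext p; rfl
    rw [h3]
    apply h.comp_continuous (by fun_prop)
    intro p
    exact ⟨p.1.2, mem_univ _⟩
  exact intervalIntegral.continuous_parametric_intervalIntegral_of_continuous' h2 0 (2 * Real.pi)

end general

section defs

variable (ψ τ : ℝ → ℂ) (a b : ℂ)

/-- `L[(1 - y t)^a (1 - w t)^b]`. -/
noncomputable def fB (y w : ℂ) : ℂ :=
  ∫ θ in (0 : ℝ)..(2 * Real.pi), ψ θ * (1 - y * τ θ) ^ a * (1 - w * τ θ) ^ b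

/-- `L[(1 - y t)^a (1 - w t)^b (1 - u t)^{-1}]`. -/
noncomputable def fA (u y w : ℂ) : ℂ :=
  ∫ θ in (0 : ℝ)..(2 * Real.pi), ψ θ * (1 - y * τ θ) ^ a * (1 - w * τ θ) ^ b * (1 - u * τ θ)⁻¹

/-- `L[(1 - y t)^a (1 - w t)^b t (1 - u t)^{-1}]`. -/
noncomputable def fA1 (u y w : ℂ) : ℂ :=
  ∫ θ in (0 : ℝ)..(2 * Real.pi),
    ψ θ * (1 - y * τ θ) ^ a * (1 - w * τ θ) ^ b * (τ θ * (1 - u * τ θ)⁻¹)

/-- `L[(1 - y t)^a (1 - w t)^b t^j (1 - u t)^{-1} (1 - v t)^{-1}]`. -/
noncomputable def fX (j : ℕ) (u v y w : ℂ) : ℂ :=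
  ∫ θ in (0 : ℝ)..(2 * Real.pi),
    ψ θ * (1 - y * τ θ) ^ a * (1 - w * τ θ) ^ b * (τ θ ^ j * ((1 - u * τ θ)⁻¹ * (1 - v * τ θ)⁻¹))

end defs

section props

variable {ψ τ : ℝ → ℂ} {τ0 : ℝ} (hψ : Continuous ψ) (hτ : Continuous τ)
  (hb : ∀ θ, ‖τ θ‖ ≤ τ0) (h0 : τ0 < 1) (a b : ℂ)

include hψ hτ hb h0

lemma cont_k {y w : ℂ} (hy : ‖y‖ ≤ 1) (hw : ‖w‖ ≤ 1) :
    Continuous (fun θ => ψ θ * (1 - y * τ θ) ^ a * (1 - w * τ θ) ^ b) :=
  (hψ.mul (continuous_pow hτ hb h0 hy a)).mul (continuous_pow hτ hb h0 hw b)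

lemma fA_sub {u y w : ℂ} (hu : ‖u‖ ≤ 1) (hy : ‖y‖ ≤ 1) (hw : ‖w‖ ≤ 1) :
    fA ψ τ a b u y w - u * fA1 ψ τ a b u y w = fB ψ τ a b y w := by
  unfold fA fA1 fB
  have hk := cont_k hψ hτ hb h0 a b hy hw
  have hi := continuous_inv' hτ hb h0 hu
  rw [← intervalIntegral.integral_const_mul, ← intervalIntegral.integral_sub]
  · apply intervalIntegral.integral_congr
    intro θ _
    have hI := mul_inv_cancel₀ (ne_zero_of_le hb h0 hu θ)
    simp only
    linear_combination (ψ θ * (1 - y * τ θ) ^ a * (1 - w * τ θ) ^ b) * hI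
  · exact (hk.mul hi).intervalIntegrable _ _
  · exact (continuous_const.mul (hk.mul (hτ.mul hi))).intervalIntegrable _ _

lemma fX_mul {z u y w : ℂ} (hz : ‖z‖ ≤ 1) (hu : ‖u‖ ≤ 1) (hy : ‖y‖ ≤ 1) (hw : ‖w‖ ≤ 1) :
    (z - u) * fX ψ τ a b 0 z u y w = z * fA ψ τ a b z y w - u * fA ψ τ a b u y w := by
  unfold fA fX
  have hk := cont_k hψ hτ hb h0 a b hy hw
  have hi := continuous_inv' hτ hb h0 hu
  have hj := continuous_inv' hτ hb h0 hz
  rw [← intervalIntegral.integral_const_mul, ← intervalIntegral.integral_const_mul,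
    ← intervalIntegral.integral_const_mul, ← intervalIntegral.integral_sub]
  · apply intervalIntegral.integral_congr
    intro θ _
    have hne := ne_zero_of_le hb h0 hu θ
    have hne2 := ne_zero_of_le hb h0 hz θ
    simp only
    field_simp
    ring
  · exact (continuous_const.mul (hk.mul hj)).intervalIntegrable _ _
  · exact (continuous_const.mul (hk.mul hi)).intervalIntegrable _ _

/-- the three relations at a double point -/
lemma fX_rel {u y w : ℂ} (hu : ‖u‖ ≤ 1) (hy : ‖y‖ ≤ 1) (hw : ‖w‖ ≤ 1) :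
    fA ψ τ a b u y w = fX ψ τ a b 0 u u y w - u * fX ψ τ a b 1 u u y w ∧
    fA1 ψ τ a b u y w = fX ψ τ a b 1 u u y w - u * fX ψ τ a b 2 u u y w := by
  unfold fA fA1 fX
  have hk := cont_k hψ hτ hb h0 a b hy hw
  have hi := continuous_inv' hτ hb h0 hu
  constructor
  · rw [← intervalIntegral.integral_const_mul, ← intervalIntegral.integral_sub]
    · apply intervalIntegral.integral_congr
      intro θ _
      have hI := mul_inv_cancel₀ (ne_zero_of_le hb h0 hu θ)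
      simp only
      linear_combination (-ψ θ * (1 - y * τ θ) ^ a * (1 - w * τ θ) ^ b * (1 - u * τ θ)⁻¹) * hI
    · exact (hk.mul ((hτ.pow 0).mul (hi.mul hi))).intervalIntegrable _ _
    · exact (continuous_const.mul (hk.mul ((hτ.pow 1).mul (hi.mul hi)))).intervalIntegrable _ _
  · rw [← intervalIntegral.integral_const_mul, ← intervalIntegral.integral_sub]
    · apply intervalIntegral.integral_congr
      intro θ _
      have hI := mul_inv_cancel₀ (ne_zero_of_le hb h0 hu θ)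
      simp only
      linear_combination
        (-ψ θ * (1 - y * τ θ) ^ a * (1 - w * τ θ) ^ b * τ θ * (1 - u * τ θ)⁻¹) * hI
    · exact (hk.mul ((hτ.pow 1).mul (hi.mul hi))).intervalIntegrable _ _
    · exact (continuous_const.mul (hk.mul ((hτ.pow 2).mul (hi.mul hi)))).intervalIntegrable _ _

/-- derivative in `u` -/
lemma hasDerivAt_fA_u {u y w : ℂ} (hu : ‖u‖ ≤ 1) (hy : ‖y‖ ≤ 1) (hw : ‖w‖ ≤ 1) :
    HasDerivAt (fun u => fA ψ τ a b u y w) (fX ψ τ a b 1 u u y w) u := by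
  have hk := cont_k hψ hτ hb h0 a b hy hw
  have h := hasDerivAt_J hτ hb h0 hk (-1) hu
  have e1 : (fun u => fA ψ τ a b u y w) = (fun u => ∫ θ in (0 : ℝ)..(2 * Real.pi),
      ψ θ * (1 - y * τ θ) ^ a * (1 - w * τ θ) ^ b * (1 - u * τ θ) ^ (-1 : ℂ)) := by
    funext u
    unfold fA
    simp only [Complex.cpow_neg_one]
  rw [e1]
  refine h.congr_deriv ?_
  unfold fX
  apply intervalIntegral.integral_congr
  intro θ _
  have hne := ne_zero_of_le hb h0 hu θ
  simp only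
  have h2 : (1 - u * τ θ) ^ ((-1 : ℂ) - 1) = (1 - u * τ θ)⁻¹ * (1 - u * τ θ)⁻¹ := by
    rw [Complex.cpow_sub _ _ hne, Complex.cpow_neg_one, Complex.cpow_one, div_eq_mul_inv]
  rw [h2]
  ring

lemma hasDerivAt_fA1_u {u y w : ℂ} (hu : ‖u‖ ≤ 1) (hy : ‖y‖ ≤ 1) (hw : ‖w‖ ≤ 1) :
    HasDerivAt (fun u => fA1 ψ τ a b u y w) (fX ψ τ a b 2 u u y w) u := by
  have hk := (cont_k hψ hτ hb h0 a b hy hw).mul hτ
  have h := hasDerivAt_J hτ hb h0 hk (-1) hu
  have e1 : (fun u => fA1 ψ τ a b u y w) = (fun u => ∫ θ in (0 : ℝ)..(2 * Real.pi),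
      (ψ θ * (1 - y * τ θ) ^ a * (1 - w * τ θ) ^ b * τ θ) * (1 - u * τ θ) ^ (-1 : ℂ)) := by
    funext u
    unfold fA1
    simp only [Complex.cpow_neg_one, mul_assoc]
  rw [e1]
  refine h.congr_deriv ?_
  unfold fX
  apply intervalIntegral.integral_congr
  intro θ _
  have hne := ne_zero_of_le hb h0 hu θ
  simp only
  have h2 : (1 - u * τ θ) ^ ((-1 : ℂ) - 1) = (1 - u * τ θ)⁻¹ * (1 - u * τ θ)⁻¹ := by
    rw [Complex.cpow_sub _ _ hne, Complex.cpow_neg_one, Complex.cpow_one, div_eq_mul_inv]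
  rw [h2, Pi.mul_apply]
  ring

/-- derivative in `y` of `fA` -/
lemma hasDerivAt_fA_y {u y w : ℂ} (hu : ‖u‖ ≤ 1) (hy : ‖y‖ ≤ 1) (hw : ‖w‖ ≤ 1) :
    ∃ D, HasDerivAt (fun y => fA ψ τ a b u y w) D y ∧
      y * D = - a * (fX ψ τ a b 0 y u y w - fA ψ τ a b u y w) := by
  have hkw : Continuous (fun θ => ψ θ * (1 - w * τ θ) ^ b * (1 - u * τ θ)⁻¹) :=
    (hψ.mul (continuous_pow hτ hb h0 hw b)).mul (continuous_inv' hτ hb h0 hu)
  have h := hasDerivAt_J hτ hb h0 hkw a hy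
  have e1 : (fun y => fA ψ τ a b u y w) = (fun y => ∫ θ in (0 : ℝ)..(2 * Real.pi),
      (ψ θ * (1 - w * τ θ) ^ b * (1 - u * τ θ)⁻¹) * (1 - y * τ θ) ^ a) := by
    funext y
    unfold fA
    apply intervalIntegral.integral_congr
    intro θ _
    simp only
    ring
  refine ⟨_, by rw [e1]; exact h, ?_⟩
  unfold fX fA
  have hk := cont_k hψ hτ hb h0 a b hy hw
  have hi := continuous_inv' hτ hb h0 hu
  have hj := continuous_inv' hτ hb h0 hy
  rw [← intervalIntegral.integral_sub, ← intervalIntegral.integral_const_mul,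
    ← intervalIntegral.integral_const_mul]
  · apply intervalIntegral.integral_congr
    intro θ _
    have hI := mul_inv_cancel₀ (ne_zero_of_le hb h0 hy θ)
    have h2 : (1 - y * τ θ) ^ (a - 1) = (1 - y * τ θ) ^ a * (1 - y * τ θ)⁻¹ := by
      rw [Complex.cpow_sub _ _ (ne_zero_of_le hb h0 hy θ), Complex.cpow_one, div_eq_mul_inv]
    simp only [h2]
    linear_combination
      (-a * ψ θ * (1 - y * τ θ) ^ a * (1 - w * τ θ) ^ b * (1 - u * τ θ)⁻¹) * (-hI)
  · exact (hk.mul ((hτ.pow 0).mul (hj.mul hi))).intervalIntegrable _ _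
  · exact (hk.mul hi).intervalIntegrable _ _

/-- derivative in `y` of `fB` -/
lemma hasDerivAt_fB_y {y w : ℂ} (hy : ‖y‖ ≤ 1) (hw : ‖w‖ ≤ 1) :
    ∃ D, HasDerivAt (fun y => fB ψ τ a b y w) D y ∧
      y * D = - a * (fA ψ τ a b y y w - fB ψ τ a b y w) := by
  have hkw : Continuous (fun θ => ψ θ * (1 - w * τ θ) ^ b) :=
    (hψ.mul (continuous_pow hτ hb h0 hw b))
  have h := hasDerivAt_J hτ hb h0 hkw a hy
  have e1 : (fun y => fB ψ τ a b y w) = (fun y => ∫ θ in (0 : ℝ)..(2 * Real.pi),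
      (ψ θ * (1 - w * τ θ) ^ b) * (1 - y * τ θ) ^ a) := by
    funext y
    unfold fB
    apply intervalIntegral.integral_congr
    intro θ _
    simp only
    ring
  refine ⟨_, by rw [e1]; exact h, ?_⟩
  unfold fA fB
  have hk := cont_k hψ hτ hb h0 a b hy hw
  have hj := continuous_inv' hτ hb h0 hy
  rw [← intervalIntegral.integral_sub, ← intervalIntegral.integral_const_mul,
    ← intervalIntegral.integral_const_mul]
  · apply intervalIntegral.integral_congr
    intro θ _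
    have hI := mul_inv_cancel₀ (ne_zero_of_le hb h0 hy θ)
    have h2 : (1 - y * τ θ) ^ (a - 1) = (1 - y * τ θ) ^ a * (1 - y * τ θ)⁻¹ := by
      rw [Complex.cpow_sub _ _ (ne_zero_of_le hb h0 hy θ), Complex.cpow_one, div_eq_mul_inv]
    simp only [h2]
    linear_combination
      (-a * ψ θ * (1 - y * τ θ) ^ a * (1 - w * τ θ) ^ b) * (-hI)
  · exact (hk.mul hj).intervalIntegrable _ _
  · exact hk.intervalIntegrable _ _

/-- derivative in `w` of `fA` -/
lemma hasDerivAt_fA_w {u y w : ℂ} (hu : ‖u‖ ≤ 1) (hy : ‖y‖ ≤ 1) (hw : ‖w‖ ≤ 1) :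
    ∃ D, HasDerivAt (fun w => fA ψ τ a b u y w) D w ∧
      w * D = - b * (fX ψ τ a b 0 w u y w - fA ψ τ a b u y w) := by
  have hkw : Continuous (fun θ => ψ θ * (1 - y * τ θ) ^ a * (1 - u * τ θ)⁻¹) :=
    (hψ.mul (continuous_pow hτ hb h0 hy a)).mul (continuous_inv' hτ hb h0 hu)
  have h := hasDerivAt_J hτ hb h0 hkw b hw
  have e1 : (fun w => fA ψ τ a b u y w) = (fun w => ∫ θ in (0 : ℝ)..(2 * Real.pi),
      (ψ θ * (1 - y * τ θ) ^ a * (1 - u * τ θ)⁻¹) * (1 - w * τ θ) ^ b) := by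
    funext w
    unfold fA
    apply intervalIntegral.integral_congr
    intro θ _
    simp only
    ring
  refine ⟨_, by rw [e1]; exact h, ?_⟩
  unfold fX fA
  have hk := cont_k hψ hτ hb h0 a b hy hw
  have hi := continuous_inv' hτ hb h0 hu
  have hj := continuous_inv' hτ hb h0 hw
  rw [← intervalIntegral.integral_sub, ← intervalIntegral.integral_const_mul,
    ← intervalIntegral.integral_const_mul]
  · apply intervalIntegral.integral_congr
    intro θ _
    have hI := mul_inv_cancel₀ (ne_zero_of_le hb h0 hw θ)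
    have h2 : (1 - w * τ θ) ^ (b - 1) = (1 - w * τ θ) ^ b * (1 - w * τ θ)⁻¹ := by
      rw [Complex.cpow_sub _ _ (ne_zero_of_le hb h0 hw θ), Complex.cpow_one, div_eq_mul_inv]
    simp only [h2]
    linear_combination
      (-b * ψ θ * (1 - y * τ θ) ^ a * (1 - w * τ θ) ^ b * (1 - u * τ θ)⁻¹) * (-hI)
  · exact (hk.mul ((hτ.pow 0).mul (hj.mul hi))).intervalIntegrable _ _
  · exact (hk.mul hi).intervalIntegrable _ _

/-- derivative in `w` of `fB` -/
lemma hasDerivAt_fB_w {y w : ℂ} (hy : ‖y‖ ≤ 1) (hw : ‖w‖ ≤ 1) :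
    ∃ D, HasDerivAt (fun w => fB ψ τ a b y w) D w ∧
      w * D = - b * (fA ψ τ a b w y w - fB ψ τ a b y w) := by
  have hkw : Continuous (fun θ => ψ θ * (1 - y * τ θ) ^ a) :=
    (hψ.mul (continuous_pow hτ hb h0 hy a))
  have h := hasDerivAt_J hτ hb h0 hkw b hw
  refine ⟨_, h, ?_⟩
  unfold fA fB
  have hk := cont_k hψ hτ hb h0 a b hy hw
  have hj := continuous_inv' hτ hb h0 hw
  rw [← intervalIntegral.integral_sub, ← intervalIntegral.integral_const_mul,
    ← intervalIntegral.integral_const_mul]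
  · apply intervalIntegral.integral_congr
    intro θ _
    have hI := mul_inv_cancel₀ (ne_zero_of_le hb h0 hw θ)
    have h2 : (1 - w * τ θ) ^ (b - 1) = (1 - w * τ θ) ^ b * (1 - w * τ θ)⁻¹ := by
      rw [Complex.cpow_sub _ _ (ne_zero_of_le hb h0 hw θ), Complex.cpow_one, div_eq_mul_inv]
    simp only [h2]
    linear_combination
      (-b * ψ θ * (1 - y * τ θ) ^ a * (1 - w * τ θ) ^ b) * (-hI)
  · exact (hk.mul hj).intervalIntegrable _ _
  · exact hk.intervalIntegrable _ _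

/-- the relation with the functional applied to `(1 - y t)^(a+1) (1 - w t)^(b-1)` -/
lemma fF_eq {y w : ℂ} (hy : ‖y‖ ≤ 1) (hw : ‖w‖ ≤ 1) :
    fB ψ τ (a + 1) (b - 1) y w = fA ψ τ a b w y w - y * fA1 ψ τ a b w y w := by
  unfold fA fA1 fB
  have hk := cont_k hψ hτ hb h0 a b hy hw
  have hi := continuous_inv' hτ hb h0 hw
  rw [← intervalIntegral.integral_const_mul, ← intervalIntegral.integral_sub]
  · apply intervalIntegral.integral_congr
    intro θ _
    have h1 : (1 - y * τ θ) ^ (a + 1) = (1 - y * τ θ) ^ a * (1 - y * τ θ) := by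
      rw [Complex.cpow_add _ _ (ne_zero_of_le hb h0 hy θ), Complex.cpow_one]
    have h2 : (1 - w * τ θ) ^ (b - 1) = (1 - w * τ θ) ^ b * (1 - w * τ θ)⁻¹ := by
      rw [Complex.cpow_sub _ _ (ne_zero_of_le hb h0 hw θ), Complex.cpow_one, div_eq_mul_inv]
    simp only [h1, h2]
    ring
  · exact (hk.mul hi).intervalIntegrable _ _
  · exact (continuous_const.mul (hk.mul (hτ.mul hi))).intervalIntegrable _ _

end props

end Pool.Agent.H26.HC
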