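import Pool.Agent.H26.HCBasic
import Pool.Agent.H26.HCFunctional

/-!
The critical-radius argument.
-/

set_option autoImplicit false

open Complex Metric Set MeasureTheory
open scoped ComplexConjugate

namespace Pool.Agent.H26.HC

lemma re_ge_half {q : ℂ} (h : ‖q - 1‖ ≤ ‖q‖) : 1 / 2 ≤ q.re := by
  have h1 : ‖q - 1‖ ^ 2 ≤ ‖q‖ ^ 2 := pow_le_pow_left₀ (norm_nonneg _) h 2
  simp only [← Complex.normSq_eq_norm_sq, Complex.normSq_apply, Complex.sub_re, Complex.sub_im,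
    Complex.one_re, Complex.one_im] at h1
  nlinarith

lemma re_eq_half {q : ℂ} (h : ‖q - 1‖ = ‖q‖) : q.re = 1 / 2 := by
  have h1 : ‖q - 1‖ ^ 2 = ‖q‖ ^ 2 := by rw [h]
  simp only [← Complex.normSq_eq_norm_sq, Complex.normSq_apply, Complex.sub_re, Complex.sub_im,
    Complex.one_re, Complex.one_im] at h1
  nlinarith

lemma norm_sub_one_of_re {q : ℂ} (h : q.re = 1 / 2) : ‖q - 1‖ = ‖q‖ := by
  have h1 : ‖q - 1‖ ^ 2 = ‖q‖ ^ 2 := by
    simp only [← Complex.normSq_eq_norm_sq, Complex.normSq_apply, Complex.sub_re, Complex.sub_im,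
      Complex.one_re, Complex.one_im, h]
    ring
  have h2 := norm_nonneg (q - 1)
  have h3 := norm_nonneg q
  rcases (pow_eq_pow_iff_of_ne_zero (two_ne_zero)).mp h1 with h4 | h4
  · exact h4
  · linarith [h4.1]

section critical

variable {ψ τ : ℝ → ℂ} {τ0 : ℝ} (hψ : Continuous ψ) (hτ : Continuous τ)
  (hb : ∀ θ, ‖τ θ‖ ≤ τ0) (h0 : τ0 < 1) {a b : ℂ}
  (H1 : ∀ u y w : ℂ, ‖u‖ ≤ 1 → ‖y‖ ≤ 1 → ‖w‖ ≤ 1 →
    ‖fA1 ψ τ a b u y w‖ ≤ ‖fA ψ τ a b u y w‖)
  (H2 : ∀ y w : ℂ, ‖y‖ ≤ 1 → ‖w‖ ≤ 1 → fB ψ τ (a + 1) (b - 1) y w ≠ 0)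

include hψ hτ hb h0

lemma continuousOn_fA_u {y w : ℂ} (hy : ‖y‖ ≤ 1) (hw : ‖w‖ ≤ 1) :
    ContinuousOn (fun u => fA ψ τ a b u y w) (closedBall 0 1) := fun u hu =>
  (hasDerivAt_fA_u hψ hτ hb h0 a b (by simpa using hu) hy hw).continuousAt.continuousWithinAt

include H1 H2

lemma crit_A_ne {u y w : ℂ} (hu : ‖u‖ ≤ 1) (hy : ‖y‖ ≤ 1) (hw : ‖w‖ ≤ 1) :
    fA ψ τ a b u y w ≠ 0 := by
  intro hA
  have hA1 : fA1 ψ τ a b u y w = 0 := by
    have := H1 u y w hu hy hw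
    rw [hA, norm_zero] at this
    exact norm_le_zero_iff.mp this
  have hB : fB ψ τ a b y w = 0 := by
    rw [← fA_sub hψ hτ hb h0 a b hu hy hw, hA, hA1]; simp
  have hall : ∀ v ∈ ball (0 : ℂ) 1, fA ψ τ a b v y w = 0 := by
    intro v hv
    have hv1 : ‖v‖ < 1 := by simpa using hv
    have h1 := fA_sub hψ hτ hb h0 a b hv1.le hy hw
    rw [hB] at h1
    have h2 : fA ψ τ a b v y w = v * fA1 ψ τ a b v y w := by linear_combination h1
    have h3 : ‖fA ψ τ a b v y w‖ ≤ ‖v‖ * ‖fA ψ τ a b v y w‖ := by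
      conv_lhs => rw [h2, norm_mul]
      exact mul_le_mul_of_nonneg_left (H1 v y w hv1.le hy hw) (norm_nonneg _)
    have h4 : ‖fA ψ τ a b v y w‖ ≤ 0 := by
      by_contra hcon
      push Not at hcon
      nlinarith
    exact norm_le_zero_iff.mp h4
  have hcl : EqOn (fun v => fA ψ τ a b v y w) (fun _ => 0) (closedBall 0 1) := by
    apply EqOn.of_subset_closure (s := ball (0 : ℂ) 1)
    · exact hall
    · exact continuousOn_fA_u hψ hτ hb h0 hy hw
    · exact continuousOn_const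
    · exact ball_subset_closedBall
    · rw [closure_ball _ one_ne_zero]
  have hAw : fA ψ τ a b w y w = 0 := hcl (by simpa using hw)
  have hA1w : fA1 ψ τ a b w y w = 0 := by
    have := H1 w y w hw hy hw
    rw [hAw, norm_zero] at this
    exact norm_le_zero_iff.mp this
  apply H2 y w hy hw
  rw [fF_eq hψ hτ hb h0 a b hy hw, hAw, hA1w]
  simp

lemma crit_B_ne {y w : ℂ} (hy : ‖y‖ ≤ 1) (hw : ‖w‖ ≤ 1) : fB ψ τ a b y w ≠ 0 := by
  have h1 := fA_sub hψ hτ hb h0 a b (u := 0) (by simp) hy hw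
  rw [zero_mul, sub_zero] at h1
  rw [← h1]
  exact crit_A_ne hψ hτ hb h0 H1 H2 (by simp) hy hw

lemma crit_lt {u y w : ℂ} (hu : ‖u‖ < 1) (hy : ‖y‖ ≤ 1) (hw : ‖w‖ ≤ 1) :
    ‖fA1 ψ τ a b u y w‖ < ‖fA ψ τ a b u y w‖ := by
  by_contra hcon
  have heq : ‖fA1 ψ τ a b u y w‖ = ‖fA ψ τ a b u y w‖ :=
    le_antisymm (H1 u y w hu.le hy hw) (not_lt.mp hcon)
  set f : ℂ → ℂ := fun v => fA1 ψ τ a b v y w / fA ψ τ a b v y w with hf
  have hfd : ∀ v : ℂ, ‖v‖ ≤ 1 → DifferentiableAt ℂ f v := by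
    intro v hv
    exact (hasDerivAt_fA1_u hψ hτ hb h0 a b hv hy hw).differentiableAt.div
      (hasDerivAt_fA_u hψ hτ hb h0 a b hv hy hw).differentiableAt
      (crit_A_ne hψ hτ hb h0 H1 H2 hv hy hw)
  have hfn : ∀ v : ℂ, ‖v‖ ≤ 1 → ‖f v‖ ≤ 1 := by
    intro v hv
    rw [hf]
    simp only [norm_div]
    exact div_le_one_of_le₀ (H1 v y w hv hy hw) (norm_nonneg _)
  have hfu : ‖f u‖ = 1 := by
    rw [hf]
    simp only [norm_div]
    rw [heq]
    exact div_self (norm_ne_zero_iff.mpr (crit_A_ne hψ hτ hb h0 H1 H2 hu.le hy hw))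
  have hdc : DiffContOnCl ℂ f (ball 0 1) := by
    apply DifferentiableOn.diffContOnCl
    rw [closure_ball _ one_ne_zero]
    intro v hv
    exact (hfd v (by simpa using hv)).differentiableWithinAt
  have hmax : IsMaxOn (norm ∘ f) (ball 0 1) u := by
    intro v hv
    have hv1 : ‖v‖ ≤ 1 := by
      have : ‖v‖ < 1 := by simpa using hv
      exact this.le
    simp only [Function.comp_apply, Set.mem_ofPred_eq, hfu]
    exact hfn v hv1
  have hconst := Complex.eqOn_closure_of_isPreconnected_of_isMaxOn_norm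
    (convex_ball (0 : ℂ) 1).isPreconnected isOpen_ball hdc (by simpa using hu) hmax
  rw [closure_ball _ one_ne_zero] at hconst
  set η : ℂ := f u with hη
  have hη1 : ‖conj η‖ ≤ 1 := by rw [RCLike.norm_conj, hfu]
  have hval : f (conj η) = η := hconst (by simpa using hη1)
  have hAη := crit_A_ne hψ hτ hb h0 H1 H2 hη1 hy hw
  have hA1η : fA1 ψ τ a b (conj η) y w = η * fA ψ τ a b (conj η) y w := by
    have : fA1 ψ τ a b (conj η) y w / fA ψ τ a b (conj η) y w = η := hval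
    rw [div_eq_iff hAη] at this
    exact this
  have h1 := fA_sub hψ hτ hb h0 a b hη1 hy hw
  rw [hA1η] at h1
  have h2 : conj η * η = 1 := conj_of_norm_one hfu
  have h3 : fB ψ τ a b y w = 0 := by
    rw [← h1]
    linear_combination (-(fA ψ τ a b (conj η) y w)) * h2
  exact crit_B_ne hψ hτ hb h0 H1 H2 hy hw h3

/-- derivative of the quotient in `y` at a touching point -/
lemma touch_y {α : ℝ} (hα : 1 < α) (ha : a = (α : ℂ) - 1) {u y w : ℂ} (hu : ‖u‖ = 1)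
    (hy : ‖y‖ = 1) (hw : ‖w‖ ≤ 1)
    (ht : (fA ψ τ a b u y w / fB ψ τ a b y w).re = 1 / 2) :
    (fX ψ τ a b 0 y u y w / fB ψ τ a b y w
      - (fA ψ τ a b u y w / fB ψ τ a b y w) * (fA ψ τ a b y y w / fB ψ τ a b y w)).im = 0 ∧
    0 ≤ (fX ψ τ a b 0 y u y w / fB ψ τ a b y w
      - (fA ψ τ a b u y w / fB ψ τ a b y w) * (fA ψ τ a b y y w / fB ψ τ a b y w)).re := by
  obtain ⟨DA, hDA, hDA'⟩ := hasDerivAt_fA_y hψ hτ hb h0 a b hu.le hy.le hw
  obtain ⟨DB, hDB, hDB'⟩ := hasDerivAt_fB_y hψ hτ hb h0 a b hy.le hw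
  have hB := crit_B_ne hψ hτ hb h0 H1 H2 hy.le hw
  have hq := hDA.div hDB hB
  have hmin : ∀ z : ℂ, ‖z‖ ≤ 1 → (fA ψ τ a b u y w / fB ψ τ a b y w).re
      ≤ (fA ψ τ a b u z w / fB ψ τ a b z w).re := by
    intro z hz
    rw [ht]
    apply re_ge_half
    have hBz := crit_B_ne hψ hτ hb h0 H1 H2 hz hw
    have h1 := fA_sub hψ hτ hb h0 a b hu.le hz hw
    have h2 : fA ψ τ a b u z w / fB ψ τ a b z w - 1
        = u * fA1 ψ τ a b u z w / fB ψ τ a b z w := by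
      field_simp
      linear_combination h1
    rw [h2, norm_div, norm_div, norm_mul, hu, one_mul]
    gcongr
    exact H1 u z w hu.le hz hw
  have h3 := boundary_min hy hq hmin
  set C : ℂ := fX ψ τ a b 0 y u y w / fB ψ τ a b y w
      - (fA ψ τ a b u y w / fB ψ τ a b y w) * (fA ψ τ a b y y w / fB ψ τ a b y w) with hC
  have h4 : y * ((DA * fB ψ τ a b y w - fA ψ τ a b u y w * DB) / fB ψ τ a b y w ^ 2)
      = -(((α - 1 : ℝ) : ℂ) * C) := by
    rw [hC]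
    have e1 : y * ((DA * fB ψ τ a b y w - fA ψ τ a b u y w * DB) / fB ψ τ a b y w ^ 2)
      = ((y * DA) * fB ψ τ a b y w - fA ψ τ a b u y w * (y * DB)) / fB ψ τ a b y w ^ 2 := by ring
    rw [e1, hDA', hDB', ha]
    push_cast
    field_simp
    ring
  rw [h4] at h3
  rw [Complex.neg_im, Complex.neg_re, Complex.im_ofReal_mul, Complex.re_ofReal_mul] at h3
  have hα' : 0 < α - 1 := by linarith
  refine ⟨?_, ?_⟩
  · have := h3.1
    rcases mul_eq_zero.mp (neg_eq_zero.mp this) with h5 | h5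
    · exact absurd h5 hα'.ne'
    · exact h5
  · have := h3.2
    by_contra hcon
    push Not at hcon
    nlinarith

/-- derivative of the quotient in `w` at a touching point -/
lemma touch_w {β : ℝ} (hβ : 1 < β) (hbb : b = 1 - (β : ℂ)) {u y w : ℂ} (hu : ‖u‖ = 1)
    (hy : ‖y‖ ≤ 1) (hw : ‖w‖ = 1)
    (ht : (fA ψ τ a b u y w / fB ψ τ a b y w).re = 1 / 2) :
    (fX ψ τ a b 0 w u y w / fB ψ τ a b y w
      - (fA ψ τ a b u y w / fB ψ τ a b y w) * (fA ψ τ a b w y w / fB ψ τ a b y w)).im = 0 ∧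
    (fX ψ τ a b 0 w u y w / fB ψ τ a b y w
      - (fA ψ τ a b u y w / fB ψ τ a b y w) * (fA ψ τ a b w y w / fB ψ τ a b y w)).re ≤ 0 := by
  obtain ⟨DA, hDA, hDA'⟩ := hasDerivAt_fA_w hψ hτ hb h0 a b hu.le hy hw.le
  obtain ⟨DB, hDB, hDB'⟩ := hasDerivAt_fB_w hψ hτ hb h0 a b hy hw.le
  have hB := crit_B_ne hψ hτ hb h0 H1 H2 hy hw.le
  have hq := hDA.div hDB hB
  have hmin : ∀ z : ℂ, ‖z‖ ≤ 1 → (fA ψ τ a b u y w / fB ψ τ a b y w).re
      ≤ (fA ψ τ a b u y z / fB ψ τ a b y z).re := by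
    intro z hz
    rw [ht]
    apply re_ge_half
    have hBz := crit_B_ne hψ hτ hb h0 H1 H2 hy hz
    have h1 := fA_sub hψ hτ hb h0 a b hu.le hy hz
    have h2 : fA ψ τ a b u y z / fB ψ τ a b y z - 1
        = u * fA1 ψ τ a b u y z / fB ψ τ a b y z := by
      field_simp
      linear_combination h1
    rw [h2, norm_div, norm_div, norm_mul, hu, one_mul]
    gcongr
    exact H1 u y z hu.le hy hz
  have h3 := boundary_min hw hq hmin
  set C : ℂ := fX ψ τ a b 0 w u y w / fB ψ τ a b y w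
      - (fA ψ τ a b u y w / fB ψ τ a b y w) * (fA ψ τ a b w y w / fB ψ τ a b y w) with hC
  have h4 : w * ((DA * fB ψ τ a b y w - fA ψ τ a b u y w * DB) / fB ψ τ a b y w ^ 2)
      = (((β - 1 : ℝ) : ℂ) * C) := by
    rw [hC]
    have e1 : w * ((DA * fB ψ τ a b y w - fA ψ τ a b u y w * DB) / fB ψ τ a b y w ^ 2)
      = ((w * DA) * fB ψ τ a b y w - fA ψ τ a b u y w * (w * DB)) / fB ψ τ a b y w ^ 2 := by ring
    rw [e1, hDA', hDB', hbb]
    push_cast
    field_simp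
    ring
  rw [h4] at h3
  rw [Complex.im_ofReal_mul, Complex.re_ofReal_mul] at h3
  have hβ' : 0 < β - 1 := by linarith
  refine ⟨?_, ?_⟩
  · rcases mul_eq_zero.mp h3.1 with h5 | h5
    · exact absurd h5 hβ'.ne'
    · exact h5
  · have := h3.2
    by_contra hcon
    push Not at hcon
    nlinarith

/-- there is no touching point with `u = y` -/
lemma no_diag {α : ℝ} (hα : 1 < α) (ha : a = (α : ℂ) - 1) {y w : ℂ}
    (hy : ‖y‖ = 1) (hw : ‖w‖ ≤ 1)
    (ht : (fA ψ τ a b y y w / fB ψ τ a b y w).re = 1 / 2) : False := by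
  obtain ⟨hC1, hC2⟩ := touch_y hψ hτ hb h0 H1 H2 hα ha hy hy hw ht
  have hB := crit_B_ne hψ hτ hb h0 H1 H2 hy.le hw
  have hA := crit_A_ne hψ hτ hb h0 H1 H2 hy.le hy.le hw
  obtain ⟨hr1, hr2⟩ := fX_rel hψ hτ hb h0 a b hy.le hy.le hw
  have hsub := fA_sub hψ hτ hb h0 a b hy.le hy.le hw
  set f : ℂ → ℂ := fun v => fA1 ψ τ a b v y w / fA ψ τ a b v y w with hf
  have hfd : ∀ v : ℂ, ‖v‖ ≤ 1 → DifferentiableAt ℂ f v := by
    intro v hv
    exact (hasDerivAt_fA1_u hψ hτ hb h0 a b hv hy.le hw).differentiableAt.div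
      (hasDerivAt_fA_u hψ hτ hb h0 a b hv hy.le hw).differentiableAt
      (crit_A_ne hψ hτ hb h0 H1 H2 hv hy.le hw)
  have hder : HasDerivAt f ((fX ψ τ a b 2 y y y w * fA ψ τ a b y y w
      - fA1 ψ τ a b y y w * fX ψ τ a b 1 y y y w) / fA ψ τ a b y y w ^ 2) y :=
    (hasDerivAt_fA1_u hψ hτ hb h0 a b hy.le hy.le hw).div
      (hasDerivAt_fA_u hψ hτ hb h0 a b hy.le hy.le hw) hA
  have hlt : ∀ v : ℂ, ‖v‖ < 1 → ‖f v‖ < 1 := by
    intro v hv
    rw [hf]
    simp only [norm_div]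
    rw [div_lt_one (norm_pos_iff.mpr (crit_A_ne hψ hτ hb h0 H1 H2 hv.le hy.le hw))]
    exact crit_lt hψ hτ hb h0 H1 H2 hv hy.le hw
  set A : ℂ := fA ψ τ a b y y w with hAdef
  set A1 : ℂ := fA1 ψ τ a b y y w with hA1def
  set B : ℂ := fB ψ τ a b y w with hBdef
  set X0 : ℂ := fX ψ τ a b 0 y y y w
  set X1 : ℂ := fX ψ τ a b 1 y y y w
  set X2 : ℂ := fX ψ τ a b 2 y y y w
  have hcy := conj_of_norm_one hy
  have hy0 : y ≠ 0 := by rintro rfl; simp at hy
  -- `φ = A / B`, `φ - 1 = - conj φ`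
  set p : ℂ := A / B with hp
  have hpp := add_conj_of_re ht
  have hp0 : p ≠ 0 := div_ne_zero hA hB
  have hnorm : ‖A1‖ = ‖A‖ := by
    have h1 := norm_sub_one_of_re ht
    have h2 : p - 1 = y * A1 / B := by
      rw [hp]
      field_simp
      linear_combination hsub
    rw [h2, hp, norm_div, norm_div, norm_mul, hy, one_mul] at h1
    have hBn : ‖B‖ ≠ 0 := norm_ne_zero_iff.mpr hB
    field_simp at h1
    exact h1
  have hfy : ‖f y‖ = 1 := by
    rw [hf]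
    simp only [norm_div]
    rw [← hA1def, ← hAdef, hnorm]
    exact div_self (norm_ne_zero_iff.mpr hA)
  have hpos := boundary_schwarz hy (fun v hv => (hfd v (by
      have : ‖v‖ < 1 := by simpa using hv
      exact this.le)).differentiableWithinAt) hlt hder hfy
  -- express the derivative through `C`
  have hC : X0 / B - p * p = - ((p * conj p) * (conj (f y) * (y * ((X2 * A - A1 * X1) / A ^ 2)))) := by
    have hcp : conj p = 1 - p := by linear_combination hpp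
    have hcp0 : conj p ≠ 0 := by
      rw [Ne, map_eq_zero]; exact hp0
    have hfy' : f y = A1 / A := rfl
    have hfy2 : f y = - conj p / (y * p) := by
      rw [hfy', hcp, hp]
      have : y * A / B ≠ 0 := by positivity
      field_simp
      linear_combination (-1) * hsub
    have hconj : conj (f y) = - p * y / conj p := by
      rw [hfy2, map_div₀, map_neg, Complex.conj_conj, map_mul]
      have hcy' : conj y = y⁻¹ := by field_simp; linear_combination hcy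
      rw [hcy']
      field_simp
    rw [hconj]
    have hBe : B = X0 - 2 * y * X1 + y ^ 2 * X2 := by
      rw [← hsub, hr1, hr2]; ring
    have e2 : -(p * conj p * (-p * y / conj p * (y * ((X2 * A - A1 * X1) / A ^ 2))))
        = p ^ 2 * y ^ 2 * ((X2 * A - A1 * X1) / A ^ 2) := by
      field_simp
    rw [e2, hp]
    have e3 : (A / B) ^ 2 * y ^ 2 * ((X2 * A - A1 * X1) / A ^ 2)
        = y ^ 2 * (X2 * A - A1 * X1) / B ^ 2 := by
      field_simp
    rw [e3]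
    have e4 : X0 / B - A / B * (A / B) = (X0 * B - A ^ 2) / B ^ 2 := by
      field_simp
    rw [e4]
    congr 1
    rw [hBe, hr1, hr2]
    ring
  rw [hC] at hC2
  have hpc : p * conj p = ((normSq p : ℝ) : ℂ) := Complex.mul_conj p
  rw [hpc, Complex.neg_re, Complex.re_ofReal_mul] at hC2
  have hnp : 0 < normSq p := Complex.normSq_pos.mpr hp0
  nlinarith

/-- a touching point on the torus satisfies `φ(u) (y - u) = y` -/
lemma touch_alt {α : ℝ} (hα : 1 < α) (ha : a = (α : ℂ) - 1) {u y w : ℂ} (hu : ‖u‖ = 1)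
    (hy : ‖y‖ = 1) (hw : ‖w‖ ≤ 1)
    (ht : (fA ψ τ a b u y w / fB ψ τ a b y w).re = 1 / 2) :
    y ≠ u ∧ (fA ψ τ a b u y w / fB ψ τ a b y w) * (y - u) = y := by
  have hne : y ≠ u := by
    rintro rfl
    exact no_diag hψ hτ hb h0 H1 H2 hα ha hy hw ht
  refine ⟨hne, ?_⟩
  obtain ⟨hC1, hC2⟩ := touch_y hψ hτ hb h0 H1 H2 hα ha hu hy hw ht
  have hB := crit_B_ne hψ hτ hb h0 H1 H2 hy.le hw
  have hX := fX_mul hψ hτ hb h0 a b hy.le hu.le hy.le hw
  have hx : (y - u) * (fX ψ τ a b 0 y u y w / fB ψ τ a b y w)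
      = y * (fA ψ τ a b y y w / fB ψ τ a b y w) - u * (fA ψ τ a b u y w / fB ψ τ a b y w) := by
    field_simp
    linear_combination hX
  rcases circle_algebra hy hu hne ht hx hC1 with h | h
  · exact h
  · exact (no_diag hψ hτ hb h0 H1 H2 hα ha hy hw h).elim

/-- at `u = w` the identity of `touch_alt` contradicts the nonvanishing of `F`. -/
lemma no_w {y w : ℂ} (hy : ‖y‖ ≤ 1) (hw : ‖w‖ = 1)
    (h : (fA ψ τ a b w y w / fB ψ τ a b y w) * (y - w) = y) : False := by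
  have hB := crit_B_ne hψ hτ hb h0 H1 H2 hy hw.le
  have hsub := fA_sub hψ hτ hb h0 a b hw.le hy hw.le
  have hw0 : w ≠ 0 := by rintro rfl; simp at hw
  apply H2 y w hy hw.le
  rw [fF_eq hψ hτ hb h0 a b hy hw.le]
  have h1 : fA ψ τ a b w y w * (y - w) = y * fB ψ τ a b y w := by
    field_simp at h
    rw [h, mul_comm]
  have h2 : w * (fA ψ τ a b w y w - y * fA1 ψ τ a b w y w) = 0 := by
    linear_combination (-1) * h1 + y * hsub
  exact (mul_eq_zero.mp h2).resolve_left hw0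

/-- no touching point on the torus, `β > 1` -/
lemma no_touch_gt {α β : ℝ} (hα : 1 < α) (ha : a = (α : ℂ) - 1) (hβ : 1 < β)
    (hbb : b = 1 - (β : ℂ)) {u y w : ℂ} (hu : ‖u‖ = 1)
    (hy : ‖y‖ = 1) (hw : ‖w‖ = 1)
    (ht : (fA ψ τ a b u y w / fB ψ τ a b y w).re = 1 / 2) : False := by
  obtain ⟨hne, hk⟩ := touch_alt hψ hτ hb h0 H1 H2 hα ha hu hy hw.le ht
  have hB := crit_B_ne hψ hτ hb h0 H1 H2 hy.le hw.le
  by_cases huw : w = u
  · subst huw
    exact no_w hψ hτ hb h0 H1 H2 hy.le hw hk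
  · obtain ⟨hC1, hC2⟩ := touch_w hψ hτ hb h0 H1 H2 hβ hbb hu hy.le hw ht
    have hX := fX_mul hψ hτ hb h0 a b hw.le hu.le hy.le hw.le
    have hx : (w - u) * (fX ψ τ a b 0 w u y w / fB ψ τ a b y w)
        = w * (fA ψ τ a b w y w / fB ψ τ a b y w) - u * (fA ψ τ a b u y w / fB ψ τ a b y w) := by
      field_simp
      linear_combination hX
    rcases circle_algebra hw hu huw ht hx hC1 with h | h
    · have := circle_algebra_pos huw ht hx h
      linarith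
    · -- `(w; y, w)` is again a touching point
      obtain ⟨_, hk2⟩ := touch_alt hψ hτ hb h0 H1 H2 hα ha hw hy hw.le h
      exact no_w hψ hτ hb h0 H1 H2 hy.le hw hk2

end critical

section critical2

variable {ψ τ : ℝ → ℂ} {τ0 : ℝ} (hψ : Continuous ψ) (hτ : Continuous τ)
  (hb : ∀ θ, ‖τ θ‖ ≤ τ0) (h0 : τ0 < 1) {a : ℂ}

/-- for `b = 0` nothing depends on `w` -/
lemma fA_b0 (u y w w' : ℂ) : fA ψ τ a 0 u y w = fA ψ τ a 0 u y w' := by
  unfold fA
  simp

lemma fA1_b0 (u y w w' : ℂ) : fA1 ψ τ a 0 u y w = fA1 ψ τ a 0 u y w' := by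
  unfold fA1
  simp

lemma fB_b0 (y w w' : ℂ) : fB ψ τ a 0 y w = fB ψ τ a 0 y w' := by
  unfold fB
  simp

lemma fA1_eq (b u y w : ℂ) :
    fA1 ψ τ a b u y w = fA (fun θ => ψ θ * τ θ) τ a b u y w := by
  unfold fA1 fA
  apply intervalIntegral.integral_congr
  intro θ _
  simp only
  ring

/-- If a quotient of norm at most one on the closed disc has norm one at an interior point, it has
norm one everywhere on the closed disc. -/
lemma norm_eq_of_interior {f g : ℂ → ℂ} (hf : ∀ v : ℂ, ‖v‖ ≤ 1 → DifferentiableAt ℂ f v)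
    (hg : ∀ v : ℂ, ‖v‖ ≤ 1 → DifferentiableAt ℂ g v) (hg0 : ∀ v : ℂ, ‖v‖ ≤ 1 → g v ≠ 0)
    (hle : ∀ v : ℂ, ‖v‖ ≤ 1 → ‖f v‖ ≤ ‖g v‖) {v : ℂ} (hv : ‖v‖ < 1) (he : ‖f v‖ = ‖g v‖) :
    ‖f 1‖ = ‖g 1‖ := by
  have hdc : DiffContOnCl ℂ (fun v => f v / g v) (ball 0 1) := by
    apply DifferentiableOn.diffContOnCl
    rw [closure_ball _ one_ne_zero]
    intro v hv
    have hv1 : ‖v‖ ≤ 1 := by simpa using hv
    exact ((hf v hv1).div (hg v hv1) (hg0 v hv1)).differentiableWithinAt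
  have hmax : IsMaxOn (norm ∘ (fun v => f v / g v)) (ball 0 1) v := by
    intro x hx
    have hx1 : ‖x‖ ≤ 1 := by
      have : ‖x‖ < 1 := by simpa using hx
      exact this.le
    simp only [Function.comp_apply, Set.mem_ofPred_eq, norm_div]
    rw [he, div_self (norm_ne_zero_iff.mpr (hg0 v hv.le))]
    exact div_le_one_of_le₀ (hle x hx1) (norm_nonneg _)
  have hconst := Complex.norm_eqOn_closure_of_isPreconnected_of_isMaxOn
    (convex_ball (0 : ℂ) 1).isPreconnected isOpen_ball hdc (by simpa using hv) hmax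
  rw [closure_ball _ one_ne_zero] at hconst
  have h1 := hconst (show (1 : ℂ) ∈ closedBall 0 1 by simp)
  simp only [Function.comp_apply, Function.const_apply, norm_div] at h1
  rw [he, div_self (norm_ne_zero_iff.mpr (hg0 v hv.le)),
    div_eq_one_iff_eq (norm_ne_zero_iff.mpr (hg0 1 (by simp)))] at h1
  exact h1

include hψ hτ hb h0

/-- The critical theorem. -/
theorem critical {α β : ℝ} (hα : 1 < α) (hβ : 1 ≤ β) {b : ℂ} (ha : a = (α : ℂ) - 1)
    (hbb : b = 1 - (β : ℂ))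
    (H1 : ∀ u y w : ℂ, ‖u‖ ≤ 1 → ‖y‖ ≤ 1 → ‖w‖ ≤ 1 →
      ‖fA1 ψ τ a b u y w‖ ≤ ‖fA ψ τ a b u y w‖)
    (H2 : ∀ y w : ℂ, ‖y‖ ≤ 1 → ‖w‖ ≤ 1 → fB ψ τ (a + 1) (b - 1) y w ≠ 0)
    {u y w : ℂ} (hu : ‖u‖ ≤ 1) (hy : ‖y‖ ≤ 1) (hw : ‖w‖ ≤ 1) :
    ‖fA1 ψ τ a b u y w‖ < ‖fA ψ τ a b u y w‖ := by
  by_contra hcon
  have heq : ‖fA1 ψ τ a b u y w‖ = ‖fA ψ τ a b u y w‖ :=
    le_antisymm (H1 u y w hu hy hw) (not_lt.mp hcon)
  have hu1 : ‖u‖ = 1 := by
    rcases hu.lt_or_eq with h | h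
    · exact absurd (crit_lt hψ hτ hb h0 H1 H2 h hy hw) hcon
    · exact h
  have hψτ : Continuous (fun θ => ψ θ * τ θ) := hψ.mul hτ
  -- move `y` to the boundary
  obtain ⟨y1, hy1, heq1⟩ : ∃ y1 : ℂ, ‖y1‖ = 1 ∧ ‖fA1 ψ τ a b u y1 w‖ = ‖fA ψ τ a b u y1 w‖ := by
    rcases hy.lt_or_eq with h | h
    · refine ⟨1, by simp, ?_⟩
      apply norm_eq_of_interior (f := fun v => fA1 ψ τ a b u v w)
        (g := fun v => fA ψ τ a b u v w) _ _ _ _ h heq
      · intro v hv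
        simp only [fA1_eq]
        obtain ⟨D, hD, _⟩ := hasDerivAt_fA_y hψτ hτ hb h0 a b hu hv hw
        exact hD.differentiableAt
      · intro v hv
        obtain ⟨D, hD, _⟩ := hasDerivAt_fA_y hψ hτ hb h0 a b hu hv hw
        exact hD.differentiableAt
      · intro v hv
        exact crit_A_ne hψ hτ hb h0 H1 H2 hu hv hw
      · intro v hv
        exact H1 u v w hu hv hw
    · exact ⟨y, h, heq⟩
  obtain ⟨w1, hw1, heq2⟩ : ∃ w1 : ℂ, ‖w1‖ = 1 ∧ ‖fA1 ψ τ a b u y1 w1‖ = ‖fA ψ τ a b u y1 w1‖ := by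
    rcases hw.lt_or_eq with h | h
    · refine ⟨1, by simp, ?_⟩
      apply norm_eq_of_interior (f := fun v => fA1 ψ τ a b u y1 v)
        (g := fun v => fA ψ τ a b u y1 v) _ _ _ _ h heq1
      · intro v hv
        simp only [fA1_eq]
        obtain ⟨D, hD, _⟩ := hasDerivAt_fA_w hψτ hτ hb h0 a b hu hy1.le hv
        exact hD.differentiableAt
      · intro v hv
        obtain ⟨D, hD, _⟩ := hasDerivAt_fA_w hψ hτ hb h0 a b hu hy1.le hv
        exact hD.differentiableAt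
      · intro v hv
        exact crit_A_ne hψ hτ hb h0 H1 H2 hu hy1.le hv
      · intro v hv
        exact H1 u y1 v hu hy1.le hv
    · exact ⟨w, h, heq1⟩
  have hB := crit_B_ne hψ hτ hb h0 H1 H2 hy1.le hw1.le
  have hsub := fA_sub hψ hτ hb h0 a b hu hy1.le hw1.le
  have ht : (fA ψ τ a b u y1 w1 / fB ψ τ a b y1 w1).re = 1 / 2 := by
    apply re_eq_half
    have h2 : fA ψ τ a b u y1 w1 / fB ψ τ a b y1 w1 - 1
        = u * fA1 ψ τ a b u y1 w1 / fB ψ τ a b y1 w1 := by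
      field_simp
      linear_combination hsub
    rw [h2, norm_div, norm_div, norm_mul, hu1, one_mul, heq2]
  rcases hβ.lt_or_eq with hβ1 | hβ1
  · exact no_touch_gt hψ hτ hb h0 H1 H2 hα ha hβ1 hbb hu1 hy1 hw1 ht
  · -- `β = 1`
    have hb0 : b = 0 := by rw [hbb, ← hβ1]; simp
    obtain ⟨_, hk⟩ := touch_alt hψ hτ hb h0 H1 H2 hα ha hu1 hy1 hw1.le ht
    subst hb0
    rw [fA_b0 u y1 w1 u, fB_b0 y1 w1 u] at hk
    exact no_w hψ hτ hb h0 H1 H2 hy1.le hu1 hk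

end critical2

end Pool.Agent.H26.HC
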