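import Pool.Agent.H26.HCMain

/-!
The scaling (first touch) argument: from the critical theorem to the full strict inequality.
-/

set_option autoImplicit false

open Complex Metric Set MeasureTheory
open scoped ComplexConjugate

namespace Pool.Agent.H26.HC

variable {ψ τ : ℝ → ℂ} {τ0 : ℝ} (hψ : Continuous ψ) (hτ : Continuous τ)
  (hb : ∀ θ, ‖τ θ‖ ≤ τ0) (h0 : τ0 < 1) {a b : ℂ}

/-- the compact parameter set -/
def PS : Set (ℝ × ℂ × ℂ × ℂ) :=
  Icc (0 : ℝ) 1 ×ˢ closedBall (0 : ℂ) 1 ×ˢ closedBall (0 : ℂ) 1 ×ˢ closedBall (0 : ℂ) 1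

lemma isCompact_PS : IsCompact PS :=
  isCompact_Icc.prod ((isCompact_closedBall _ _).prod
    ((isCompact_closedBall _ _).prod (isCompact_closedBall _ _)))

include hb h0 in
lemma slit_scaled {s : ℝ} (hs : s ∈ Icc (0 : ℝ) 1) {y : ℂ} (hy : ‖y‖ ≤ 1) (θ : ℝ) :
    1 - y * ((s : ℂ) * τ θ) ∈ slitPlane := by
  have h1 : ∀ θ, ‖(s : ℂ) * τ θ‖ ≤ τ0 := by
    intro θ
    rw [norm_mul, Complex.norm_real, Real.norm_eq_abs, abs_of_nonneg hs.1]
    calc s * ‖τ θ‖ ≤ 1 * ‖τ θ‖ := by gcongr; exact hs.2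
      _ ≤ τ0 := by rw [one_mul]; exact hb θ
  exact slit_of_le h1 h0 hy θ

include hψ hτ hb h0

lemma continuousOn_fA_scaled (a b : ℂ) :
    ContinuousOn (fun p : ℝ × ℂ × ℂ × ℂ =>
      fA ψ (fun θ => (p.1 : ℂ) * τ θ) a b p.2.1 p.2.2.1 p.2.2.2) PS := by
  unfold fA
  apply continuousOn_param
  have hs : ∀ (p : (ℝ × ℂ × ℂ × ℂ) × ℝ), p ∈ PS ×ˢ (univ : Set ℝ) →
      p.1.1 ∈ Icc (0 : ℝ) 1 ∧ ‖p.1.2.1‖ ≤ 1 ∧ ‖p.1.2.2.1‖ ≤ 1 ∧ ‖p.1.2.2.2‖ ≤ 1 := by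
    rintro ⟨⟨s, u, y, w⟩, θ⟩ ⟨⟨h1, h2, h3, h4⟩, -⟩
    refine ⟨h1, by simpa using h2, by simpa using h3, by simpa using h4⟩
  show ContinuousOn (fun p : (ℝ × ℂ × ℂ × ℂ) × ℝ =>
    ψ p.2 * (1 - p.1.2.2.1 * ((p.1.1 : ℂ) * τ p.2)) ^ a
      * (1 - p.1.2.2.2 * ((p.1.1 : ℂ) * τ p.2)) ^ b
      * (1 - p.1.2.1 * ((p.1.1 : ℂ) * τ p.2))⁻¹) (PS ×ˢ univ)
  apply ContinuousOn.mul
  · apply ContinuousOn.mul
    · apply ContinuousOn.mul
      · fun_prop
      · apply ContinuousOn.cpow _ continuousOn_const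
        · intro p hp
          obtain ⟨h1, h2, h3, h4⟩ := hs p hp
          exact slit_scaled hb h0 h1 h3 p.2
        · fun_prop
    · apply ContinuousOn.cpow _ continuousOn_const
      · intro p hp
        obtain ⟨h1, h2, h3, h4⟩ := hs p hp
        exact slit_scaled hb h0 h1 h4 p.2
      · fun_prop
  · apply ContinuousOn.inv₀
    · fun_prop
    · intro p hp
      obtain ⟨h1, h2, h3, h4⟩ := hs p hp
      exact slitPlane_ne_zero (slit_scaled hb h0 h1 h2 p.2)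

lemma continuousOn_fA1_scaled (a b : ℂ) :
    ContinuousOn (fun p : ℝ × ℂ × ℂ × ℂ =>
      fA1 ψ (fun θ => (p.1 : ℂ) * τ θ) a b p.2.1 p.2.2.1 p.2.2.2) PS := by
  unfold fA1
  apply continuousOn_param
  have hs : ∀ (p : (ℝ × ℂ × ℂ × ℂ) × ℝ), p ∈ PS ×ˢ (univ : Set ℝ) →
      p.1.1 ∈ Icc (0 : ℝ) 1 ∧ ‖p.1.2.1‖ ≤ 1 ∧ ‖p.1.2.2.1‖ ≤ 1 ∧ ‖p.1.2.2.2‖ ≤ 1 := by
    rintro ⟨⟨s, u, y, w⟩, θ⟩ ⟨⟨h1, h2, h3, h4⟩, -⟩
    refine ⟨h1, by simpa using h2, by simpa using h3, by simpa using h4⟩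
  show ContinuousOn (fun p : (ℝ × ℂ × ℂ × ℂ) × ℝ =>
    ψ p.2 * (1 - p.1.2.2.1 * ((p.1.1 : ℂ) * τ p.2)) ^ a
      * (1 - p.1.2.2.2 * ((p.1.1 : ℂ) * τ p.2)) ^ b
      * (((p.1.1 : ℂ) * τ p.2) * (1 - p.1.2.1 * ((p.1.1 : ℂ) * τ p.2))⁻¹)) (PS ×ˢ univ)
  apply ContinuousOn.mul
  · apply ContinuousOn.mul
    · apply ContinuousOn.mul
      · fun_prop
      · apply ContinuousOn.cpow _ continuousOn_const
        · intro p hp
          obtain ⟨h1, h2, h3, h4⟩ := hs p hp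
          exact slit_scaled hb h0 h1 h3 p.2
        · fun_prop
    · apply ContinuousOn.cpow _ continuousOn_const
      · intro p hp
        obtain ⟨h1, h2, h3, h4⟩ := hs p hp
        exact slit_scaled hb h0 h1 h4 p.2
      · fun_prop
  · apply ContinuousOn.mul
    · fun_prop
    · apply ContinuousOn.inv₀
      · fun_prop
      · intro p hp
        obtain ⟨h1, h2, h3, h4⟩ := hs p hp
        exact slitPlane_ne_zero (slit_scaled hb h0 h1 h2 p.2)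

/-- Main inequality. -/
theorem strict_of_ne {α β : ℝ} (hα : 1 < α) (hβ : 1 ≤ β) (ha : a = (α : ℂ) - 1)
    (hbb : b = 1 - (β : ℂ))
    (H : ∀ y w : ℂ, ‖y‖ ≤ 1 → ‖w‖ ≤ 1 → fB ψ τ (a + 1) (b - 1) y w ≠ 0)
    {u y w : ℂ} (hu : ‖u‖ ≤ 1) (hy : ‖y‖ ≤ 1) (hw : ‖w‖ ≤ 1) :
    ‖fA1 ψ τ a b u y w‖ < ‖fA ψ τ a b u y w‖ := by
  by_contra hcon
  set G : ℝ × ℂ × ℂ × ℂ → ℝ := fun p =>
    ‖fA ψ (fun θ => (p.1 : ℂ) * τ θ) a b p.2.1 p.2.2.1 p.2.2.2‖
      - ‖fA1 ψ (fun θ => (p.1 : ℂ) * τ θ) a b p.2.1 p.2.2.1 p.2.2.2‖ with hG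
  have hGc : ContinuousOn G PS :=
    (continuousOn_fA_scaled hψ hτ hb h0 a b).norm.sub
      (continuousOn_fA1_scaled hψ hτ hb h0 a b).norm
  set Z : Set (ℝ × ℂ × ℂ × ℂ) := PS ∩ G ⁻¹' Iic 0 with hZ
  have hZc : IsCompact Z := by
    apply isCompact_PS.of_isClosed_subset
      (hGc.preimage_isClosed_of_isClosed isCompact_PS.isClosed isClosed_Iic)
    exact inter_subset_left
  have hZn : Z.Nonempty := by
    refine ⟨(1, u, y, w), ⟨⟨by simp, by simpa using hu, by simpa using hy, by simpa using hw⟩, ?_⟩⟩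
    simp only [mem_preimage, mem_Iic, hG]
    simp only [Complex.ofReal_one, one_mul]
    linarith [not_lt.mp hcon]
  obtain ⟨p, hpZ, hpmin⟩ := hZc.exists_isMinOn hZn (f := fun p => p.1) continuous_fst.continuousOn
  obtain ⟨⟨hp1, hp2, hp3, hp4⟩, hpG⟩ := hpZ
  obtain ⟨s, us, ys, ws⟩ := p
  simp only [mem_closedBall, dist_zero_right] at hp2 hp3 hp4
  simp only at hp1
  have hscaled : ∀ θ, ‖(s : ℂ) * τ θ‖ ≤ τ0 := by
    intro θ
    rw [norm_mul, Complex.norm_real, Real.norm_eq_abs, abs_of_nonneg hp1.1]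
    calc s * ‖τ θ‖ ≤ 1 * ‖τ θ‖ := by gcongr; exact hp1.2
      _ ≤ τ0 := by rw [one_mul]; exact hb θ
  simp only [mem_preimage, mem_Iic] at hpG
  rcases hp1.1.eq_or_lt with hs0 | hs0
  · -- `s = 0`
    rw [← hs0] at hpG
    have h1 : fA1 ψ (fun θ => ((0 : ℝ) : ℂ) * τ θ) a b us ys ws = 0 := by
      unfold fA1; simp
    have h2 : fA ψ (fun θ => ((0 : ℝ) : ℂ) * τ θ) a b us ys ws = fB ψ τ (a + 1) (b - 1) 0 0 := by
      unfold fA fB; simp
    have h3 := H 0 0 (by simp) (by simp)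
    have h4 : 0 < ‖fB ψ τ (a + 1) (b - 1) 0 0‖ := norm_pos_iff.mpr h3
    simp only [hG] at hpG
    rw [h1, h2, norm_zero, sub_zero] at hpG
    linarith
  · have hH1 : ∀ u y w : ℂ, ‖u‖ ≤ 1 → ‖y‖ ≤ 1 → ‖w‖ ≤ 1 →
        ‖fA1 ψ (fun θ => (s : ℂ) * τ θ) a b u y w‖ ≤ ‖fA ψ (fun θ => (s : ℂ) * τ θ) a b u y w‖ := by
      intro u y w hu hy hw
      have hcw : ContinuousOn (fun r : ℝ => G (r, u, y, w)) (Icc 0 1) := by
        apply hGc.comp (by fun_prop)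
        intro r hr
        exact ⟨hr, by simpa using hu, by simpa using hy, by simpa using hw⟩
      have hpos : ∀ r ∈ Ico (0 : ℝ) s, 0 < G (r, u, y, w) := by
        intro r hr
        by_contra hc
        push Not at hc
        have hmem : (r, u, y, w) ∈ Z :=
          ⟨⟨⟨hr.1, hr.2.le.trans hp1.2⟩, by simpa using hu, by simpa using hy, by simpa using hw⟩, hc⟩
        have := hpmin hmem
        simp only [Set.mem_ofPred_eq] at this
        linarith [hr.2]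
      have hge : 0 ≤ G (s, u, y, w) := by
        have h1 : ContinuousWithinAt (fun r : ℝ => G (r, u, y, w)) (Ico 0 s) s :=
          (hcw s hp1).mono (fun r hr => ⟨hr.1, hr.2.le.trans hp1.2⟩)
        have h2 : s ∈ closure (Ico (0 : ℝ) s) := by
          rw [closure_Ico hs0.ne]
          exact ⟨hs0.le, le_rfl⟩
        have := h1.mem_closure_image h2
        have h3 : closure ((fun r : ℝ => G (r, u, y, w)) '' Ico 0 s) ⊆ Ici 0 := by
          apply closure_minimal _ isClosed_Ici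
          rintro _ ⟨r, hr, rfl⟩
          exact (hpos r hr).le
        exact h3 this
      simp only [hG] at hge
      linarith
    have hH2 : ∀ y w : ℂ, ‖y‖ ≤ 1 → ‖w‖ ≤ 1 →
        fB ψ (fun θ => (s : ℂ) * τ θ) (a + 1) (b - 1) y w ≠ 0 := by
      intro y w hy hw
      have h1 : fB ψ (fun θ => (s : ℂ) * τ θ) (a + 1) (b - 1) y w
          = fB ψ τ (a + 1) (b - 1) (s * y) (s * w) := by
        unfold fB
        apply intervalIntegral.integral_congr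
        intro θ _
        simp only
        rw [show y * ((s : ℂ) * τ θ) = (s : ℂ) * y * τ θ by ring,
          show w * ((s : ℂ) * τ θ) = (s : ℂ) * w * τ θ by ring]
      rw [h1]
      apply H
      · rw [norm_mul, Complex.norm_real, Real.norm_eq_abs, abs_of_nonneg hp1.1]
        nlinarith [hp1.1, hp1.2, norm_nonneg y]
      · rw [norm_mul, Complex.norm_real, Real.norm_eq_abs, abs_of_nonneg hp1.1]
        nlinarith [hp1.1, hp1.2, norm_nonneg w]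
    have hfin := critical (τ := fun θ => (s : ℂ) * τ θ) hψ (continuous_const.mul hτ) hscaled h0 hα hβ ha hbb hH1 hH2 hp2 hp3 hp4
    simp only [hG] at hpG
    linarith

end Pool.Agent.H26.HC
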